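import Pool.Agent.TH262.AD.Stm

/-! Translation of the frozen walk sums: they equal `ZW`. -/

set_option autoImplicit false

namespace Pool.Agent.TH262.AD

open H981 Finset
open Pool.Agent.TH795.EP

theorem f1_vis (w : List St) : ∀ h : ℤ, vis h w =
    ∑ i ∈ Finset.range w.length, if h + dy (w.take (i + 1)) = 0 then 1 else 0 := by
  induction w with
  | nil => intro h; rfl
  | cons s w ih =>
    intro h
    have h1 : vis h (s :: w) = vis (h + s.y) w + if h + s.y = 0 then 1 else 0 := by
      unfold vis
      rw [hs, List.count_cons]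
      congr 1
      by_cases h2 : h + s.y = 0 <;> simp [h2]
    rw [h1, ih, List.length_cons, Finset.sum_range_succ']
    congr 1
    · apply Finset.sum_congr rfl
      intro i _
      rw [List.take_succ_cons, dy_cons, add_assoc]
    · simp

theorem f1_up (w : List St) : ∀ h : ℤ, Up h w ↔ ∀ i < w.length, 0 ≤ h + dy (w.take (i + 1)) := by
  induction w with
  | nil => intro h; simp [Up, hs]
  | cons s w ih =>
    intro h
    have h1 : Up h (s :: w) ↔ 0 ≤ h + s.y ∧ Up (h + s.y) w := by
      unfold Up
      rw [hs, List.forall_mem_cons]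
    rw [h1, ih]
    constructor
    · rintro ⟨h2, h3⟩ i hi
      cases i with
      | zero => simpa using h2
      | succ i =>
        rw [List.take_succ_cons, dy_cons, ← add_assoc]
        exact h3 i (by simpa using hi)
    · intro h2
      refine ⟨by simpa using h2 0 (by simp), fun i hi => ?_⟩
      have h3 := h2 (i + 1) (by simpa using hi)
      rwa [List.take_succ_cons, dy_cons, ← add_assoc] at h3

theorem f1_up' {n : ℕ} {w : List St} (hw : w.length = n) :
    Up 0 w ↔ ∀ i : Fin (n + 1), 0 ≤ (path w i).2 := by
  rw [f1_up]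
  constructor
  · intro h i
    induction i using Fin.cases with
    | zero => simp [path]
    | succ i =>
      have := h i (by rw [hw]; exact i.2)
      simpa [path] using this
  · intro h i hi
    have := h ⟨i + 1, by omega⟩
    simpa [path] using this

theorem f1_card {n : ℕ} {w : List St} (hw : w.length = n) :
    (Finset.univ.filter (fun i : Fin (n + 1) => (path w i).2 = 0)).card = vis 0 w + 1 := by
  rw [Finset.card_filter, Fin.sum_univ_succ, f1_vis, hw, add_comm]
  congr 1
  · rw [← Fin.sum_univ_eq_sum_range (fun i => if (0 : ℤ) + dy (w.take (i + 1)) = 0 then 1 else 0) n]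
    apply Finset.sum_congr rfl
    intro i _
    simp [path]

theorem f1_vis_le (w : List St) (h : ℤ) : vis h w ≤ w.length := by
  rw [f1_vis]
  calc _ ≤ ∑ i ∈ Finset.range w.length, 1 := Finset.sum_le_sum fun i _ => by split_ifs <;> simp
    _ = w.length := by simp

theorem f1_step {n : ℕ} {w : List St} (hw : w.length = n) (i : Fin n) :
    |(path w i.succ).1 - (path w i.castSucc).1| +
      |(path w i.succ).2 - (path w i.castSucc).2| = 1 := by
  have hi : (i : ℕ) < w.length := by rw [hw]; exact i.2
  have h2 := path_succ hi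
  simp only [Fin.val_succ, Fin.val_castSucc]
  rw [h2.1, h2.2]
  cases w[(i : ℕ)] <;> simp

theorem f1 : St_F1 := by
  classical
  intro α n
  set F := fs (fun w => Saw w ∧ Up 0 w) n with hF
  have hmaps : ∀ w ∈ F, vis 0 w + 1 ∈ Finset.range (n + 2) := by
    intro w hw
    have h1 := (mem_fs.1 hw).2
    have := f1_vis_le w 0
    rw [Finset.mem_range]
    omega
  have hZ : ZW α n = ∑ m ∈ Finset.range (n + 2),
      ((F.filter (fun w => vis 0 w + 1 = m)).card : ℝ) * Real.exp (α * (m : ℝ)) := by
    unfold ZW
    rw [← Finset.sum_fiberwise_of_maps_to hmaps]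
    apply Finset.sum_congr rfl
    intro m _
    rw [← nsmul_eq_mul, ← Finset.sum_const]
    apply Finset.sum_congr rfl
    intro w hw
    have h1 := (Finset.mem_filter.1 hw).2
    rw [← h1]
    push_cast
    ring_nf
  rw [hZ]
  apply Finset.sum_congr rfl
  intro m _
  congr 2
  have hset : ({w : Fin (n + 1) → ℤ × ℤ |
                w 0 = 0 ∧ Function.Injective w ∧ (∀ i, 0 ≤ (w i).2) ∧
                (∀ i : Fin n, |(w i.succ).1 - (w i.castSucc).1|
                    + |(w i.succ).2 - (w i.castSucc).2| = 1) ∧
                (Finset.univ.filter (fun i : Fin (n + 1) => (w i).2 = 0)).card = m}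
              : Set (Fin (n + 1) → ℤ × ℤ)) =
      (fun (w : List St) (i : Fin (n + 1)) => path w i) '' (F.filter (fun w => vis 0 w + 1 = m) :
        Set (List St)) := by
    ext ω
    rw [Set.mem_setOf_eq, Set.mem_image]
    constructor
    · rintro ⟨h0, h1, h2, h3, h4⟩
      obtain ⟨w, hw, hp⟩ := exists_word' n ω ⟨h0, h3, h1⟩
      have hfun : (fun i : Fin (n + 1) => path w i) = ω := funext hp
      refine ⟨w, ?_, hfun⟩
      rw [Finset.mem_coe, Finset.mem_filter, hF, mem_fs]
      refine ⟨⟨⟨?_, ?_⟩, hw⟩, ?_⟩
      · rw [saw_iff n hw, hfun]; exact h1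
      · rw [f1_up' hw]
        intro i
        rw [hp i]
        exact h2 i
      · rw [← f1_card hw, ← h4]
        congr 1
        apply Finset.filter_congr
        intro i _
        rw [hp i]
    · rintro ⟨w, hw, rfl⟩
      rw [Finset.mem_coe, Finset.mem_filter, hF, mem_fs] at hw
      obtain ⟨⟨⟨h1, h2⟩, h3⟩, h4⟩ := hw
      refine ⟨by simp [path], (saw_iff n h3).1 h1, (f1_up' h3).1 h2, fun i => f1_step h3 i, ?_⟩
      rw [← h4, ← f1_card h3]
  rw [hset, Set.InjOn.ncard_image, Set.ncard_coe_finset]
  intro w hw w' hw' he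
  rw [Finset.mem_coe, Finset.mem_filter, hF, mem_fs] at hw hw'
  exact path_injective hw.1.2 hw'.1.2 (fun i => congrFun he i)

end Pool.Agent.TH262.AD
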