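import Pool.Agent.TH262.AD.Stm

set_option autoImplicit false

/-!
The number of strictly decreasing lists of positive integers at most `n` with sum at most `n` is
subexponential (P1c of helper262's project AD; written by helper374).
-/

namespace Pool.Agent.TH262.AD

open H981 Finset Pool.Agent.TH795.EP

/-- the strictly decreasing lists of positive integers at most `n` -/
def p1cF : ℕ → Finset (List ℕ)
  | 0 => {[]}
  | n + 1 => p1cF n ∪ (p1cF n).image (fun α => (n + 1) :: α)

theorem p1c_mem (n : ℕ) : ∀ β : List ℕ, β ∈ p1cF n ↔ Dec n β := by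
  induction n with
  | zero =>
    intro β
    rw [p1cF, mem_singleton]
    cases β with
    | nil => exact ⟨fun _ => trivial, fun _ => rfl⟩
    | cons A α =>
      constructor
      · intro h
        exact absurd h (List.cons_ne_nil _ _)
      · rintro ⟨h1, h2, -⟩
        omega
  | succ n ih =>
    intro β
    rw [p1cF, mem_union, mem_image, ih]
    constructor
    · rintro (h | ⟨α, hα, rfl⟩)
      · exact h.mono (Nat.le_succ n)
      · refine ⟨by omega, le_rfl, ?_⟩
        rw [Nat.add_sub_cancel]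
        exact (ih α).1 hα
    · intro h
      cases β with
      | nil => exact Or.inl trivial
      | cons A α =>
        obtain ⟨h1, h2, h3⟩ := h
        rcases Nat.lt_or_ge n A with h4 | h4
        · have h5 : A = n + 1 := by omega
          subst h5
          rw [Nat.add_sub_cancel] at h3
          exact Or.inr ⟨α, (ih α).2 h3, rfl⟩
        · exact Or.inl ⟨h1, h4, h3⟩

theorem p1c_sum {x : ℝ} (hx : 0 ≤ x) (n : ℕ) :
    ∑ β ∈ p1cF n, x ^ β.sum ≤ ∏ B ∈ range n, (1 + x ^ (B + 1)) := by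
  induction n with
  | zero => simp [p1cF]
  | succ n ih =>
    rw [prod_range_succ, p1cF]
    have h1 : ∑ β ∈ p1cF n ∪ (p1cF n).image (fun α => (n + 1) :: α), x ^ β.sum ≤
        ∑ β ∈ p1cF n, x ^ β.sum + ∑ β ∈ (p1cF n).image (fun α => (n + 1) :: α), x ^ β.sum := by
      rw [← sum_union_inter]
      exact le_add_of_nonneg_right (sum_nonneg fun _ _ => pow_nonneg hx _)
    have h2 : ∑ β ∈ (p1cF n).image (fun α => (n + 1) :: α), x ^ β.sum =
        x ^ (n + 1) * ∑ β ∈ p1cF n, x ^ β.sum := by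
      rw [sum_image (fun a _ b _ h => (List.cons.inj h).2), mul_sum]
      refine sum_congr rfl fun β _ => ?_
      rw [List.sum_cons, pow_add]
    rw [h2] at h1
    have h3 : 0 ≤ x ^ (n + 1) := pow_nonneg hx _
    calc _ ≤ (∑ β ∈ p1cF n, x ^ β.sum) * (1 + x ^ (n + 1)) := by linarith
      _ ≤ _ := mul_le_mul_of_nonneg_right ih (by linarith)

theorem p1c_prod {x : ℝ} (hx : 0 ≤ x) (hx1 : x < 1) (n : ℕ) :
    ∏ B ∈ range n, (1 + x ^ (B + 1)) ≤ Real.exp (x / (1 - x)) := by
  have h1 : ∏ B ∈ range n, (1 + x ^ (B + 1)) ≤ Real.exp (∑ B ∈ range n, x ^ (B + 1)) := by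
    rw [Real.exp_sum]
    refine prod_le_prod (fun B _ => by positivity) fun B _ => ?_
    have := Real.add_one_le_exp (x ^ (B + 1))
    linarith
  refine h1.trans (Real.exp_le_exp.2 ?_)
  have h2 : ∑ B ∈ range n, x ^ (B + 1) = x * ∑ B ∈ range n, x ^ B := by
    rw [mul_sum]
    exact sum_congr rfl fun B _ => by rw [pow_succ, mul_comm]
  have h3 : 0 < 1 - x := by linarith
  have h4 : (∑ B ∈ range n, x ^ B) * (1 - x) = 1 - x ^ n := by
    have := geom_sum_mul_neg x n
    exact this
  have h5 : ∑ B ∈ range n, x ^ B ≤ 1 / (1 - x) := by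
    rw [le_div_iff₀ h3, h4]
    have : 0 ≤ x ^ n := pow_nonneg hx _
    linarith
  rw [h2]
  calc x * ∑ B ∈ range n, x ^ B ≤ x * (1 / (1 - x)) := mul_le_mul_of_nonneg_left h5 hx
    _ = x / (1 - x) := by ring

theorem p1c : St_P1c := by
  intro ε hε
  obtain ⟨x, hx⟩ : ∃ x : ℝ, x = Real.exp (-ε) := ⟨_, rfl⟩
  have hx0 : 0 < x := hx ▸ Real.exp_pos _
  have hx1 : x < 1 := by
    rw [hx, Real.exp_lt_one_iff]
    linarith
  refine ⟨Real.exp (x / (1 - x)), (Real.exp_pos _).le, fun n => ?_⟩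
  have hset : {β : List ℕ | Dec n β ∧ β.sum ≤ n} =
      ↑((p1cF n).filter (fun β => β.sum ≤ n)) := by
    ext β
    rw [Finset.mem_coe, Finset.mem_filter, p1c_mem]
    rfl
  rw [hset]
  refine ⟨Finset.finite_toSet _, ?_⟩
  rw [Set.ncard_coe_finset]
  have h1 : (((p1cF n).filter (fun β => β.sum ≤ n)).card : ℝ) * x ^ n ≤
      Real.exp (x / (1 - x)) := by
    refine le_trans ?_ ((p1c_sum hx0.le n).trans (p1c_prod hx0.le hx1 n))
    calc (((p1cF n).filter (fun β => β.sum ≤ n)).card : ℝ) * x ^ n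
        = ∑ β ∈ (p1cF n).filter (fun β => β.sum ≤ n), x ^ n := by
          rw [sum_const, nsmul_eq_mul]
      _ ≤ ∑ β ∈ (p1cF n).filter (fun β => β.sum ≤ n), x ^ β.sum := by
          refine sum_le_sum fun β hβ => ?_
          exact pow_le_pow_of_le_one hx0.le hx1.le (Finset.mem_filter.1 hβ).2
      _ ≤ ∑ β ∈ p1cF n, x ^ β.sum :=
          sum_le_sum_of_subset_of_nonneg (filter_subset _ _) fun _ _ _ => pow_nonneg hx0.le _
  have h2 : x ^ n * Real.exp (ε * n) = 1 := by
    rw [hx, ← Real.exp_nat_mul, ← Real.exp_add]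
    have : (n : ℝ) * -ε + ε * n = 0 := by ring
    rw [this, Real.exp_zero]
  calc (((p1cF n).filter (fun β => β.sum ≤ n)).card : ℝ)
      = (((p1cF n).filter (fun β => β.sum ≤ n)).card : ℝ) * x ^ n * Real.exp (ε * n) := by
        rw [mul_assoc, h2, mul_one]
    _ ≤ Real.exp (x / (1 - x)) * Real.exp (ε * n) :=
        mul_le_mul_of_nonneg_right h1 (Real.exp_pos _).le

end Pool.Agent.TH262.AD
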