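import Pool.Agent.TH262.AD.Stm
import Pool.Agent.TH262.SawE.Gauss

/-!
P3: cheap long unfolded blocks.
-/

set_option autoImplicit false

namespace Pool.Agent.TH262.AD

open H981 Finset
open Pool.Agent.TH795.EP

/-- choice of the ratio `M` (odd) -/
private theorem p3_M (K δ : ℝ) (hK : 0 ≤ K) (hδ : 0 < δ) : ∃ k : ℕ,
    K * Real.log (2 + ((2 * k + 1 : ℕ) : ℝ)) ^ 3 ≤ δ / 4 * ((2 * k + 1 : ℕ) : ℝ) := by
  have h0 : (0 : ℝ) < δ / (12 * (K + 1)) := by positivity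
  have h1 := (Real.isLittleO_pow_log_id_atTop (n := 3)).bound h0
  obtain ⟨X, hX⟩ := Filter.eventually_atTop.mp h1
  refine ⟨⌈|X|⌉₊, ?_⟩
  have hk : |X| ≤ (⌈|X|⌉₊ : ℝ) := Nat.le_ceil _
  generalize ⌈|X|⌉₊ = k at hk ⊢
  have hk0 : (0 : ℝ) ≤ k := Nat.cast_nonneg k
  have hXk : X ≤ 2 + ((2 * k + 1 : ℕ) : ℝ) := by
    push_cast
    have := le_abs_self X
    linarith
  have h2 := hX _ hXk
  rw [Real.norm_eq_abs, id, Real.norm_eq_abs] at h2
  have hM : (0 : ℝ) < 2 + ((2 * k + 1 : ℕ) : ℝ) := by positivity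
  rw [abs_of_pos hM] at h2
  have h3 : Real.log (2 + ((2 * k + 1 : ℕ) : ℝ)) ^ 3 ≤
      δ / (12 * (K + 1)) * (2 + ((2 * k + 1 : ℕ) : ℝ)) := (le_abs_self _).trans h2
  have hM1 : (1 : ℝ) ≤ ((2 * k + 1 : ℕ) : ℝ) := by push_cast; linarith
  generalize ((2 * k + 1 : ℕ) : ℝ) = M at *
  calc K * Real.log (2 + M) ^ 3 ≤ K * (δ / (12 * (K + 1)) * (2 + M)) :=
        mul_le_mul_of_nonneg_left h3 hK
    _ ≤ K * (δ / (12 * (K + 1)) * (3 * M)) := by
        apply mul_le_mul_of_nonneg_left _ hK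
        apply mul_le_mul_of_nonneg_left _ h0.le
        linarith
    _ = δ / 4 * M * (K / (K + 1)) := by field_simp; ring
    _ ≤ δ / 4 * M * 1 := by
        apply mul_le_mul_of_nonneg_left
        · rw [div_le_one (by linarith)]; linarith
        · have : 0 ≤ M := by linarith
          positivity
    _ = δ / 4 * M := mul_one _

/-- choice of the length -/
private theorem p3_N (A δ M : ℝ) (hA : 0 ≤ A) (hδ : 0 < δ) (_hM : 0 ≤ M) (W0 : ℕ) :
    ∃ N : ℕ, W0 ≤ N ∧ 2 ≤ N ∧ A * (M * N + 1) * Real.exp (-(δ / 2 * N)) < 1 := by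
  refine ⟨W0 + ⌈8 * A * (M + 1) / δ ^ 2⌉₊ + 2, by omega, by omega, ?_⟩
  have hc : 8 * A * (M + 1) / δ ^ 2 ≤ (⌈8 * A * (M + 1) / δ ^ 2⌉₊ : ℝ) := Nat.le_ceil _
  obtain ⟨N, hN⟩ : ∃ N : ℝ, N = ((W0 + ⌈8 * A * (M + 1) / δ ^ 2⌉₊ + 2 : ℕ) : ℝ) := ⟨_, rfl⟩
  rw [← hN]
  have hN1 : 8 * A * (M + 1) / δ ^ 2 ≤ N := by
    rw [hN]; push_cast
    have : (0 : ℝ) ≤ W0 := Nat.cast_nonneg _
    linarith
  have hN2 : 1 ≤ N := by
    rw [hN]; push_cast
    have : (0 : ℝ) ≤ W0 := Nat.cast_nonneg _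
    have h2 : (0 : ℝ) ≤ (⌈8 * A * (M + 1) / δ ^ 2⌉₊ : ℝ) := Nat.cast_nonneg _
    linarith
  have hδ2 : 0 < δ ^ 2 := by positivity
  rw [div_le_iff₀ hδ2] at hN1
  have hexp : (δ / 2 * N) ^ 2 / 2 < Real.exp (δ / 2 * N) := by
    have h := Real.quadratic_le_exp_of_nonneg (x := δ / 2 * N) (by positivity)
    have : 0 ≤ δ / 2 * N := by positivity
    linarith
  rw [Real.exp_neg, ← div_eq_mul_inv, div_lt_one (Real.exp_pos _)]
  refine lt_of_le_of_lt ?_ hexp
  have h1 : A * (M * N + 1) ≤ A * ((M + 1) * N) := by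
    apply mul_le_mul_of_nonneg_left _ hA
    nlinarith
  have h2 : (8 * A * (M + 1)) * N ≤ N * δ ^ 2 * N :=
    mul_le_mul_of_nonneg_right hN1 (by linarith)
  have h3 : (δ / 2 * N) ^ 2 / 2 = N * δ ^ 2 * N / 8 := by ring
  rw [h3]
  linarith

theorem p3 : St_P3 := by
  classical
  rintro ⟨F, hF0, hFe, hF⟩ δ hδ W0
  obtain ⟨K, hK0, hK⟩ := SawE.gauss_words
  obtain ⟨k, hk⟩ := p3_M K δ hK0 hδ
  obtain ⟨M, hMdef⟩ : ∃ M : ℕ, M = 2 * k + 1 := ⟨_, rfl⟩
  rw [← hMdef] at hk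
  have hM1 : 1 ≤ M := by omega
  have hMr : (1 : ℝ) ≤ M := by exact_mod_cast hM1
  have hM0 : (0 : ℝ) < M := by linarith
  obtain ⟨L, hL⟩ : ∃ L : ℝ, L = K * Real.log (2 + (M : ℝ)) ^ 3 := ⟨_, rfl⟩
  rw [← hL] at hk
  obtain ⟨K', hK'0, hK'⟩ := hFe (δ / (4 * M)) (by positivity)
  obtain ⟨N, hNW, hN2, hN⟩ := p3_N (K' * Real.exp L) δ M (by positivity) hδ hM0.le W0
  obtain ⟨n, hn⟩ : ∃ n : ℕ, n = M * N := ⟨_, rfl⟩
  have hNn : N ≤ n := by rw [hn]; nlinarith
  have hnr : (n : ℝ) = M * N := by rw [hn]; push_cast; ring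
  have hN0 : (0 : ℝ) < N := by exact_mod_cast (by omega : 0 < N)
  by_contra hcon

  have hcon' : ∀ w : ℕ, W0 ≤ w → ((fs (fun v => Unf v ∧ dx v = w) n).card : ℝ) <
      mu ^ n * Real.exp (-(δ * w)) := by
    intro w hw
    by_contra h
    exact hcon ⟨n, w, hw, not_lt.mp h⟩
  have hmun : 0 < mu ^ n := pow_pos mu_pos n
  -- the Gaussian bound
  have hg := hK n (by omega) N 0 (by simp; omega) (by
      have h1 : ((N : ℤ) + 0 - (n : ℤ)) = -2 * ((k : ℤ) * N) := by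
        rw [hn, hMdef]; push_cast; ring
      rw [h1]
      omega) (by
      have h1 : |(N : ℤ)| = N := abs_of_nonneg (by positivity)
      rw [h1, abs_zero, add_zero]
      exact_mod_cast hNn) N hN0.le (by push_cast; ring)
  have e1 : 1 + (N : ℝ) ^ 2 / n = 1 + N / M := by
    rw [hnr]; field_simp
  have e2 : (n : ℝ) / N = M := by
    rw [hnr]; field_simp
  rw [e1, e2] at hg
  have e3 : K * ((1 + (N : ℝ) / M) * Real.log (2 + (M : ℝ)) ^ 3) = L + L / M * N := by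
    rw [hL]; ring
  rw [e3] at hg
  have hLM : L / M ≤ δ / 4 := by rw [div_le_iff₀ hM0]; exact hk
  have hmc : mu ^ n ≤ c n := by rw [c_eq]; exact mu_pow_le n
  have h1 : Real.exp (-(L + L / M * N)) * mu ^ n ≤ a n N 0 :=
    (mul_le_mul_of_nonneg_left hmc (Real.exp_pos _).le).trans hg
  have h2 : (a n N 0 : ℝ) ≤ ((fs (fun w => Saw w ∧ (N : ℤ) ≤ dx w) n).card : ℝ) := by
    unfold a
    exact_mod_cast Finset.card_le_card (fun w hw => by
      rw [mem_fs] at hw ⊢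
      exact ⟨⟨hw.1.1, hw.1.2.1.ge⟩, hw.2⟩)
  have h3 : ((fs (fun w => Saw w ∧ (N : ℤ) ≤ dx w) n).card : ℝ) ≤
      F n * ((fs (fun w => Unf w ∧ (N : ℤ) ≤ dx w) n).card : ℝ) := by
    have h := hF n N (fun _ => 1) (fun _ => zero_le_one)
    simpa using h
  have h4 : ((fs (fun w => Unf w ∧ (N : ℤ) ≤ dx w) n).card : ℝ) ≤
      ((n : ℝ) + 1) * (mu ^ n * Real.exp (-(δ * N))) := by
    have h5 : fs (fun w => Unf w ∧ (N : ℤ) ≤ dx w) n ⊆
        (Finset.Icc N n).biUnion (fun w => fs (fun v => Unf v ∧ dx v = w) n) := by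
      intro v hv
      rw [mem_fs] at hv
      obtain ⟨⟨hu, hd⟩, hlen⟩ := hv
      have hle := dx_le_length v
      rw [hlen] at hle
      rw [Finset.mem_biUnion]
      refine ⟨(dx v).toNat, ?_, ?_⟩
      · rw [Finset.mem_Icc]
        omega
      · rw [mem_fs]
        refine ⟨⟨hu, ?_⟩, hlen⟩
        omega
    have h6 : (fs (fun w => Unf w ∧ (N : ℤ) ≤ dx w) n).card ≤
        ∑ w ∈ Finset.Icc N n, (fs (fun v => Unf v ∧ dx v = w) n).card :=
      (Finset.card_le_card h5).trans Finset.card_biUnion_le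
    calc ((fs (fun w => Unf w ∧ (N : ℤ) ≤ dx w) n).card : ℝ)
        ≤ ∑ w ∈ Finset.Icc N n, ((fs (fun v => Unf v ∧ dx v = w) n).card : ℝ) := by
          exact_mod_cast h6
      _ ≤ ∑ w ∈ Finset.Icc N n, mu ^ n * Real.exp (-(δ * N)) := by
          apply Finset.sum_le_sum
          intro w hw
          rw [Finset.mem_Icc] at hw
          refine (hcon' w (hNW.trans hw.1)).le.trans ?_
          apply mul_le_mul_of_nonneg_left _ hmun.le
          apply Real.exp_le_exp.mpr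
          have : (N : ℝ) ≤ w := by exact_mod_cast hw.1
          have := mul_le_mul_of_nonneg_left this hδ.le
          linarith
      _ = ((Finset.Icc N n).card : ℝ) * (mu ^ n * Real.exp (-(δ * N))) := by
          rw [Finset.sum_const, nsmul_eq_mul]
      _ ≤ ((n : ℝ) + 1) * (mu ^ n * Real.exp (-(δ * N))) := by
          apply mul_le_mul_of_nonneg_right _ (by positivity)
          rw [Nat.card_Icc]
          exact_mod_cast (by omega : n + 1 - N ≤ n + 1)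
  have hFn := hK' n
  have e4 : δ / (4 * M) * (n : ℝ) = δ / 4 * N := by
    rw [hnr]; field_simp
  rw [e4] at hFn
  have h7 : Real.exp (-(L + L / M * N)) * mu ^ n ≤
      (K' * Real.exp (δ / 4 * N)) * (((n : ℝ) + 1) * (mu ^ n * Real.exp (-(δ * N)))) := by
    refine (h1.trans (h2.trans h3)).trans ?_
    exact mul_le_mul hFn h4 (Nat.cast_nonneg _) (by positivity)
  have h8 : Real.exp (-(L + L / M * N)) ≤
      (K' * Real.exp (δ / 4 * N)) * (((n : ℝ) + 1) * Real.exp (-(δ * N))) := by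
    have h9 : (K' * Real.exp (δ / 4 * N)) * (((n : ℝ) + 1) * (mu ^ n * Real.exp (-(δ * N)))) =
      (K' * Real.exp (δ / 4 * N)) * (((n : ℝ) + 1) * Real.exp (-(δ * N))) * mu ^ n := by ring
    rw [h9] at h7
    exact le_of_mul_le_mul_right h7 hmun
  have h10 : Real.exp (-L) * Real.exp (-(δ / 4 * N)) ≤ Real.exp (-(L + L / M * N)) := by
    rw [← Real.exp_add]
    apply Real.exp_le_exp.mpr
    have := mul_le_mul_of_nonneg_right hLM hN0.le
    linarith
  have h11 : Real.exp (-L) * Real.exp (-(δ / 4 * N)) ≤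
      (K' * Real.exp (δ / 4 * N)) * (((n : ℝ) + 1) * Real.exp (-(δ * N))) := h10.trans h8
  have h12 : 1 ≤ K' * Real.exp L * (M * N + 1) * Real.exp (-(δ / 2 * N)) := by
    have hp : 0 < Real.exp L * Real.exp (δ / 4 * N) := by positivity
    have h13 := mul_le_mul_of_nonneg_left h11 hp.le
    have e5 : Real.exp L * Real.exp (δ / 4 * N) * (Real.exp (-L) * Real.exp (-(δ / 4 * N))) = 1 := by
      rw [← Real.exp_add, ← Real.exp_add, ← Real.exp_add, ← Real.exp_zero]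
      congr 1
      ring
    have e6 : Real.exp L * Real.exp (δ / 4 * N) *
        ((K' * Real.exp (δ / 4 * N)) * (((n : ℝ) + 1) * Real.exp (-(δ * N)))) =
        K' * Real.exp L * (M * N + 1) *
          (Real.exp (δ / 4 * N) * Real.exp (δ / 4 * N) * Real.exp (-(δ * N))) := by
      rw [hnr]; ring
    have e7 : Real.exp (δ / 4 * N) * Real.exp (δ / 4 * N) * Real.exp (-(δ * N)) =
        Real.exp (-(δ / 2 * N)) := by
      rw [← Real.exp_add, ← Real.exp_add]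
      congr 1
      ring
    rw [e5, e6, e7] at h13
    exact h13
  linarith

end Pool.Agent.TH262.AD
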