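import Pool.Agent.TH262.AD.Stm

/-!
Lower arcs: concatenation of unfolded loops with eastward joining steps.
-/

set_option autoImplicit false

namespace Pool.Agent.TH262.AD

open H981 Finset
open Pool.Agent.TH795.EP

private theorem P4a_hs_append (h : ℤ) (u w : List St) :
    hs h (u ++ w) = hs h u ++ hs (h + dy u) w := by
  induction u generalizing h with
  | nil => simp [hs]
  | cons s u ih =>
    rw [List.cons_append, hs, hs, ih, List.cons_append, dy_cons, add_assoc]

private theorem P4a_hs_le (h : ℤ) (w : List St) : ∀ y ∈ hs h w, y ≤ h + w.length := by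
  induction w generalizing h with
  | nil => intro y hy; simp [hs] at hy
  | cons s w ih =>
    intro y hy
    have hs1 : s.y ≤ 1 := by cases s <;> decide
    rw [hs, List.mem_cons] at hy
    rw [List.length_cons]
    push_cast
    rcases hy with rfl | hy
    · omega
    · have := ih _ y hy
      omega

private theorem P4a_prefix_cons {s : St} {u v : List St} (h : v <+: s :: u) (h0 : v ≠ []) :
    ∃ v', v = s :: v' ∧ v' <+: u := by
  cases v with
  | nil => exact absurd rfl h0
  | cons t v' =>
    rw [List.cons_prefix_cons] at h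
    exact ⟨v', by rw [h.1], h.2⟩

private theorem P4a_join {k m h0 : ℕ} {l u : List St} (hl : LArc k m h0 l)
    (hu : Unf u ∧ Up 0 u ∧ dy u = 0 ∧ dx u = h0) (hum : u.length = m) :
    LArc (k + 1) m h0 (l ++ St.E :: u) ∧ vis 0 (l ++ St.E :: u) = vis 0 l + 1 + vis 0 u := by
  obtain ⟨l1, l2, l3, l4, l5, l6, l7⟩ := hl
  obtain ⟨⟨u1, u1'⟩, u2, u3, u4⟩ := hu
  have hhs : hs 0 (l ++ St.E :: u) = hs 0 l ++ (0 :: hs 0 u) := by
    rw [P4a_hs_append, l3, hs]
    simp
  have hv : ∀ v, v <+: St.E :: u → v ≠ [] → 1 ≤ dx v ∧ dx v ≤ h0 + 1 := by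
    intro v h1 h2
    obtain ⟨v', rfl, h3⟩ := P4a_prefix_cons h1 h2
    have := u1' v' h3
    rw [dx_cons, St.x_E]
    omega
  have hk : (0 : ℤ) ≤ (k : ℤ) * (h0 + 1) := by positivity
  have hk' : ((k + 1 : ℕ) : ℤ) * (h0 + 1) = (k : ℤ) * (h0 + 1) + (h0 + 1) := by push_cast; ring
  refine ⟨⟨?_, ?_, ?_, ?_, ?_, ?_, ?_⟩, ?_⟩
  · intro w hw h1 h2
    rcases infix_append_cases hw with h | h | ⟨m1, m2, h3, h4, h5, h6, rfl⟩
    · exact l1 w h h1 h2
    · rcases List.infix_cons_iff.1 h with h | h
      · by_contra h0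
        have := (hv w h h0).1
        omega
      · exact u1 w h h1 h2
    · exfalso
      obtain ⟨s, hs⟩ := h3
      have h7 := l6 s ⟨m1, hs⟩
      have h8 : dx s + dx m1 = dx l := by rw [← hs, dx_append]
      have h9 := (hv m2 h4 h6).1
      rw [dx_append] at h1
      omega
  · intro y hy
    rw [hhs, List.mem_append, List.mem_cons] at hy
    rcases hy with hy | rfl | hy
    · exact l2 y hy
    · exact le_rfl
    · exact u2 y hy
  · rw [dy_append, dy_cons, l3, u3]; rfl
  · rw [dx_append, dx_cons, l4, u4, hk', St.x_E]; ring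
  · intro v hv1 hv2
    rcases prefix_append_cases hv1 with h | ⟨v', h3, h4, rfl⟩
    · exact l5 v h hv2
    · have := (hv v' h3 h4).1
      rw [dx_append, l4]
      omega
  · intro v hv1
    rw [hk']
    rcases prefix_append_cases hv1 with h | ⟨v', h3, h4, rfl⟩
    · have := l6 v h
      omega
    · have := (hv v' h3 h4).2
      rw [dx_append, l4]
      omega
  · intro y hy
    rw [hhs, List.mem_append, List.mem_cons] at hy
    rcases hy with hy | rfl | hy
    · exact l7 y hy
    · positivity
    · have := P4a_hs_le 0 u y hy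
      omega
  · unfold vis
    rw [hhs, List.count_append, List.count_cons_self]
    omega

theorem p4a : St_P4a := by
  intro α m h0 k
  induction k with
  | zero =>
    have h : ([] : List St) ∈ fs (LArc 0 m h0) (0 * (m + 1)) := by
      rw [mem_fs]
      refine ⟨⟨saw_nil, ?_, rfl, by simp, ?_, ?_, ?_⟩, by simp⟩
      · intro y hy; simp [hs] at hy
      · intro u hu h; exact absurd (List.prefix_nil.1 hu) h
      · intro u hu; rw [List.prefix_nil.1 hu]; simp
      · intro y hy; simp [hs] at hy
    rw [pow_zero]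
    calc (1 : ℝ) = Real.exp (α * (vis 0 ([] : List St) : ℝ)) := by simp [vis, hs]
      _ ≤ _ := Finset.single_le_sum (f := fun l => Real.exp (α * (vis 0 l : ℝ)))
          (fun _ _ => (Real.exp_pos _).le) h
  | succ k ih =>
    classical
    set A := fs (LArc k m h0) (k * (m + 1)) with hA
    set B := fs (fun w => Unf w ∧ Up 0 w ∧ dy w = 0 ∧ dx w = h0) m with hB
    have hpos : 0 ≤ Real.exp α * ULd h0 α m := by
      unfold ULd
      exact mul_nonneg (Real.exp_pos _).le (Finset.sum_nonneg fun _ _ => (Real.exp_pos _).le)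
    have hinj : Set.InjOn (fun p : List St × List St => p.1 ++ St.E :: p.2)
        (A ×ˢ B : Finset (List St × List St)) := by
      rintro ⟨l, u⟩ h1 ⟨l', u'⟩ h2 h3
      rw [Finset.mem_coe, Finset.mem_product, hA, mem_fs] at h1 h2
      have h4 := List.append_inj h3 (by rw [h1.1.2, h2.1.2])
      have h5 : u = u' := by simpa using h4.2
      rw [Prod.mk.injEq]
      exact ⟨h4.1, h5⟩
    calc (Real.exp α * ULd h0 α m) ^ (k + 1)
        = (Real.exp α * ULd h0 α m) ^ k * (Real.exp α * ULd h0 α m) := pow_succ _ _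
      _ ≤ (∑ l ∈ A, Real.exp (α * (vis 0 l : ℝ))) * (Real.exp α * ULd h0 α m) :=
          mul_le_mul_of_nonneg_right ih hpos
      _ = ∑ p ∈ A ×ˢ B, Real.exp (α * (vis 0 p.1 : ℝ)) *
            (Real.exp α * Real.exp (α * (vis 0 p.2 : ℝ))) := by
          unfold ULd
          rw [Finset.mul_sum, Finset.sum_mul_sum, Finset.sum_product]
      _ = ∑ p ∈ A ×ˢ B, Real.exp (α * (vis 0 (p.1 ++ St.E :: p.2) : ℝ)) := by
          apply Finset.sum_congr rfl
          rintro ⟨l, u⟩ hp
          rw [Finset.mem_product, hA, hB, mem_fs, mem_fs] at hp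
          have := (P4a_join hp.1.1 hp.2.1 hp.2.2).2
          simp only
          rw [this, ← Real.exp_add, ← Real.exp_add]
          congr 1
          push_cast
          ring
      _ = ∑ l ∈ (A ×ˢ B).image (fun p : List St × List St => p.1 ++ St.E :: p.2),
            Real.exp (α * (vis 0 l : ℝ)) := by
          rw [Finset.sum_image hinj]
      _ ≤ ∑ l ∈ fs (LArc (k + 1) m h0) ((k + 1) * (m + 1)), Real.exp (α * (vis 0 l : ℝ)) := by
          apply Finset.sum_le_sum_of_subset_of_nonneg
          · intro w hw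
            rw [Finset.mem_image] at hw
            obtain ⟨⟨l, u⟩, hp, rfl⟩ := hw
            rw [Finset.mem_product, hA, hB, mem_fs, mem_fs] at hp
            rw [mem_fs]
            refine ⟨(P4a_join hp.1.1 hp.2.1 hp.2.2).1, ?_⟩
            simp only [List.length_append, List.length_cons]
            rw [hp.1.2, hp.2.2]
            ring
          · intro _ _ _
            exact (Real.exp_pos _).le

end Pool.Agent.TH262.AD
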