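import Pool.Agent.TH262.AD.Stm

/-!
Upper arcs with bounded drift (`St_P4b`).
-/

set_option autoImplicit false

namespace Pool.Agent.TH262.AD

open H981 Finset
open Pool.Agent.TH795.EP

namespace P4b

lemma hs_append (h : ℤ) (u v : List St) : hs h (u ++ v) = hs h u ++ hs (h + dy u) v := by
  induction u generalizing h with
  | nil => simp [hs]
  | cons s u ih =>
    simp only [List.cons_append, hs, dy_cons]
    rw [ih, add_assoc]

lemma hs_le (h y : ℤ) (w : List St) (hy : y ∈ hs h w) : |y - h| ≤ w.length := by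
  induction w generalizing h with
  | nil => simp [hs] at hy
  | cons s w ih =>
    have hs1 : |s.y| ≤ 1 := by cases s <;> simp
    rw [abs_le] at hs1
    simp only [hs, List.mem_cons] at hy
    simp only [List.length_cons, Nat.cast_add, Nat.cast_one]
    rcases hy with rfl | hy
    · rw [abs_le]
      constructor <;> omega
    · have h1 := ih _ hy
      rw [abs_le] at h1 ⊢
      constructor <;> omega

lemma prefix_sg {v q : List St} (hv : Unf v) (hq : q <+: sg v) : dx q ≤ 0 ∧ -dx v ≤ dx q := by
  have h3 : sg q <+: v := by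
    have := hq.map St.sg
    change H981.sg q <+: H981.sg (H981.sg v) at this
    simpa using this
  have h4 := hv.2 _ h3
  rw [dx_sg] at h4
  omega

lemma unf_ng {v : List St} (hv : Unf v) : Unf (ng v) := by
  refine ⟨hv.1.ng, fun q hq => ?_⟩
  have h3 : ng q <+: v := by
    have := hq.map St.ng
    change H981.ng q <+: H981.ng (H981.ng v) at this
    simpa using this
  have h4 := hv.2 _ h3
  rw [dx_ng] at h4 ⊢
  exact h4

/-- nonempty prefixes of the block -/
lemma prefix_blk {v q : List St} (hv : Unf v) (hq : q <+: St.W :: sg v) (h0 : q ≠ []) :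
    dx q ≤ -1 ∧ -1 - dx v ≤ dx q := by
  have hq' : q <+: [St.W] ++ sg v := by simpa using hq
  rcases prefix_append_cases hq' with h1 | ⟨r, hr, _, rfl⟩
  · obtain ⟨t, ht⟩ := h1
    have h2 : q = [St.W] := by
      cases q with
      | nil => exact absurd rfl h0
      | cons s q =>
        simp only [List.cons_append, List.cons.injEq, List.append_eq_nil_iff] at ht
        rw [ht.1, ht.2.1]
    have h5 := hv.2 v (List.prefix_refl v)
    rw [h2]
    simp only [dx_cons, dx_nil, St.x_W]
    omega
  · have h2 := prefix_sg hv hr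
    simp only [dx_append, dx_cons, dx_nil, St.x_W]
    omega

lemma saw_blk {v : List St} (hv : Unf v) : Saw (St.W :: sg v) := by
  intro m hm h1 h2
  have hm' : m <:+: [St.W] ++ sg v := by simpa using hm
  rcases infix_append_cases hm' with h | h | ⟨m1, m2, h3, h4, h5, h6, rfl⟩
  · obtain ⟨s, t, hst⟩ := h
    by_contra h0
    have hlen := congrArg List.length hst
    simp only [List.length_append, List.length_cons, List.length_nil] at hlen
    have hm1 : 0 < m.length := List.length_pos_of_ne_nil h0
    have hs0 : s = [] := List.eq_nil_of_length_eq_zero (by omega)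
    have ht0 : t = [] := List.eq_nil_of_length_eq_zero (by omega)
    subst hs0 ht0
    simp only [List.nil_append, List.append_nil] at hst
    rw [hst] at h1
    simp at h1
  · exact hv.1.sg m h h1 h2
  · exfalso
    obtain ⟨s, hs⟩ := h3
    have hlen := congrArg List.length hs
    simp only [List.length_append, List.length_cons, List.length_nil] at hlen
    have hm1 : 0 < m1.length := List.length_pos_of_ne_nil h5
    have hs0 : s = [] := List.eq_nil_of_length_eq_zero (by omega)
    subst hs0
    simp only [List.nil_append] at hs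
    have h7 := prefix_sg hv h4
    rw [hs] at h1
    simp only [dx_append, dx_cons, dx_nil, St.x_W] at h1
    omega

lemma uarc_succ {j b w : ℕ} {u v : List St} (hu : UArc j b w u) (hv : Unf v) (hvw : dx v = w)
    (hvl : v.length = b) (hd : |dy u + dy v| ≤ b) : UArc (j + 1) b w (u ++ St.W :: sg v) := by
  obtain ⟨h1, h2, h3, h4, h5, h6⟩ := hu
  have hj : (0 : ℤ) ≤ (j : ℤ) * (w + 1) := by positivity
  have hexp : (((j + 1 : ℕ) : ℤ)) * ((w : ℤ) + 1) = (j : ℤ) * (w + 1) + (w + 1) := by
    push_cast; ring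
  have hw0 : (0 : ℤ) ≤ w := Nat.cast_nonneg w
  refine ⟨?_, ?_, ?_, ?_, ?_, ?_⟩
  · intro m hm hm1 hm2
    rcases infix_append_cases hm with h | h | ⟨m1, m2, h7, h8, h9, h10, rfl⟩
    · exact h1 m h hm1 hm2
    · exact saw_blk hv m h hm1 hm2
    · exfalso
      obtain ⟨s, hs⟩ := h7
      have h11 := h5 s ⟨m1, hs⟩
      have h12 : dx s + dx m1 = dx u := by rw [← hs, dx_append]
      have h13 := prefix_blk hv h8 h10
      rw [dx_append] at hm1
      omega
  · rw [dx_append, dx_cons, dx_sg, h2, hvw, hexp, St.x_W]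
    ring
  · rw [dy_append, dy_cons, dy_sg, St.y_W, zero_add]
    exact hd
  · intro p hp hp0
    rcases prefix_append_cases hp with h | ⟨q, hq, hq0, rfl⟩
    · exact h4 p h hp0
    · have h13 := prefix_blk hv hq hq0
      rw [dx_append]
      omega
  · intro p hp
    rw [hexp]
    rcases prefix_append_cases hp with h | ⟨q, hq, hq0, rfl⟩
    · have h14 := h5 p h
      omega
    · have h13 := prefix_blk hv hq hq0
      rw [dx_append]
      omega
  · intro y hy
    rw [hs_append, List.mem_append] at hy
    rcases hy with hy | hy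
    · exact h6 y hy
    · have hy' : y = dy u ∨ y ∈ hs (dy u) (sg v) := by
        simpa [hs] using hy
      rw [abs_le] at h3
      rcases hy' with hy' | hy'
      · rw [hy', abs_le]
        omega
      · have h15 := hs_le _ _ _ hy'
        rw [length_sg, hvl, abs_le] at h15
        rw [abs_le]
        omega

lemma uarc_zero (b w : ℕ) : UArc 0 b w [] := by
  refine ⟨saw_nil, by simp, by simp, ?_, ?_, ?_⟩
  · intro p hp hp0
    exact absurd (List.prefix_nil.1 hp) hp0
  · intro p hp
    rw [List.prefix_nil.1 hp]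
    simp
  · intro y hy
    simp [hs] at hy

lemma half (V : Finset (List St)) (b : ℕ) (d : ℤ) (hd : |d| ≤ b)
    (hV : ∀ v ∈ V, ng v ∈ V ∧ |dy v| ≤ b) :
    V.card ≤ 2 * (V.filter fun v => |d + dy v| ≤ b).card := by
  classical
  have h1 : V ⊆ (V.filter fun v => |d + dy v| ≤ b) ∪
      (V.filter fun v => |d + dy v| ≤ b).image ng := by
    intro v hv
    obtain ⟨h2, h3⟩ := hV v hv
    rw [Finset.mem_union, Finset.mem_filter, Finset.mem_image]
    rw [abs_le] at hd h3
    by_cases hc : |d + dy v| ≤ b
    · exact Or.inl ⟨hv, hc⟩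
    · right
      refine ⟨ng v, Finset.mem_filter.2 ⟨h2, ?_⟩, ng_ng v⟩
      rw [abs_le] at hc ⊢
      rw [dy_ng]
      omega
  calc V.card ≤ _ := Finset.card_le_card h1
    _ ≤ (V.filter fun v => |d + dy v| ≤ b).card +
        ((V.filter fun v => |d + dy v| ≤ b).image ng).card := Finset.card_union_le _ _
    _ ≤ (V.filter fun v => |d + dy v| ≤ b).card + (V.filter fun v => |d + dy v| ≤ b).card :=
        Nat.add_le_add_left Finset.card_image_le _
    _ = 2 * (V.filter fun v => |d + dy v| ≤ b).card := by ring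

lemma step (b w j : ℕ) :
    (fs (UArc j b w) (j * (b + 1))).card * (fs (fun v => Unf v ∧ dx v = w) b).card ≤
      2 * (fs (UArc (j + 1) b w) ((j + 1) * (b + 1))).card := by
  classical
  set V := fs (fun v => Unf v ∧ dx v = w) b with hVdef
  set U := fs (UArc j b w) (j * (b + 1)) with hUdef
  let G : List St → Finset (List St) := fun u => V.filter fun v => |dy u + dy v| ≤ b
  have hV : ∀ v ∈ V, ng v ∈ V ∧ |dy v| ≤ b := by
    intro v hv
    obtain ⟨⟨h1, h2⟩, h3⟩ := mem_fs.1 hv
    refine ⟨mem_fs.2 ⟨⟨unf_ng h1, by rw [dx_ng, h2]⟩, by rw [length_ng, h3]⟩, ?_⟩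
    have h4 := abs_dy_le' v
    rw [h3] at h4
    exact h4
  have h1 : U.card * V.card ≤ 2 * (U.sigma G).card := by
    rw [Finset.card_sigma, Finset.mul_sum]
    calc U.card * V.card = ∑ _u ∈ U, V.card := by rw [Finset.sum_const, smul_eq_mul]
      _ ≤ ∑ u ∈ U, 2 * (G u).card := by
        refine Finset.sum_le_sum fun u hu => ?_
        exact half V b (dy u) (mem_fs.1 hu).1.2.2.1 hV
  refine h1.trans (Nat.mul_le_mul_left 2 ?_)
  refine Finset.card_le_card_of_injOn (fun p => p.1 ++ St.W :: sg p.2) ?_ ?_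
  · rintro ⟨u, v⟩ hp
    have hp' := Finset.mem_sigma.1 (Finset.mem_coe.1 hp)
    obtain ⟨hu, hul⟩ := mem_fs.1 hp'.1
    obtain ⟨hv0, hd⟩ := Finset.mem_filter.1 hp'.2
    obtain ⟨⟨hv, hvw⟩, hvl⟩ := mem_fs.1 hv0
    refine Finset.mem_coe.2 (mem_fs.2 ⟨uarc_succ hu hv hvw hvl hd, ?_⟩)
    rw [List.length_append, List.length_cons, length_sg]
    have hul' : u.length = j * (b + 1) := hul
    have hvl' : v.length = b := hvl
    rw [hul', hvl']
    ring
  · rintro ⟨u, v⟩ hp ⟨u', v'⟩ hp' he
    have hq := Finset.mem_sigma.1 (Finset.mem_coe.1 hp)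
    have hq' := Finset.mem_sigma.1 (Finset.mem_coe.1 hp')
    have hul : u.length = j * (b + 1) := (mem_fs.1 hq.1).2
    have hul' : u'.length = j * (b + 1) := (mem_fs.1 hq'.1).2
    have he' : u ++ St.W :: sg v = u' ++ St.W :: sg v' := he
    obtain ⟨h2, h3⟩ := List.append_inj he' (hul.trans hul'.symm)
    have h4 : sg v = sg v' := (List.cons.inj h3).2
    have h5 := sg_injective h4
    subst h2 h5
    rfl

end P4b

theorem p4b : St_P4b := by
  intro b w j
  induction j with
  | zero =>
    rw [pow_zero]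
    have h1 : ([] : List St) ∈ fs (UArc 0 b w) (0 * (b + 1)) :=
      mem_fs.2 ⟨P4b.uarc_zero b w, by simp⟩
    have h2 : 1 ≤ (fs (UArc 0 b w) (0 * (b + 1))).card := Finset.card_pos.2 ⟨_, h1⟩
    exact_mod_cast h2
  | succ j ih =>
    have h1 := P4b.step b w j
    have h2 : ((fs (UArc j b w) (j * (b + 1))).card : ℝ) *
        ((fs (fun v => Unf v ∧ dx v = w) b).card : ℝ) ≤
        2 * ((fs (UArc (j + 1) b w) ((j + 1) * (b + 1))).card : ℝ) := by exact_mod_cast h1
    have h3 : (0 : ℝ) ≤ ((fs (fun v => Unf v ∧ dx v = w) b).card : ℝ) / 2 := by positivity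
    rw [pow_succ]
    calc _ ≤ ((fs (UArc j b w) (j * (b + 1))).card : ℝ) *
          (((fs (fun v => Unf v ∧ dx v = w) b).card : ℝ) / 2) :=
          mul_le_mul_of_nonneg_right ih h3
      _ ≤ _ := by linarith

end Pool.Agent.TH262.AD
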