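import Pool.Agent.TH262.AD.Stm

/-!
AD-P6m: merging open polygons.
-/

set_option autoImplicit false

namespace Pool.Agent.TH262.AD

open H981 Finset Pool.Agent.TH795.EP

namespace P6mAux

theorem saw_iff {w : List St} : Saw w ↔
    ∀ u v, u <+: w → v <+: w → dx u = dx v → dy u = dy v → u = v := by
  constructor
  · intro h u v hu hv h1 h2
    rcases List.prefix_or_prefix_of_prefix hu hv with h3 | h3
    · obtain ⟨m, rfl⟩ := h3
      have hm : m = [] := h m (by obtain ⟨t, ht⟩ := hv; exact ⟨u, t, ht⟩)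
        (by rw [dx_append] at h1; omega) (by rw [dy_append] at h2; omega)
      rw [hm, List.append_nil]
    · obtain ⟨m, rfl⟩ := h3
      have hm : m = [] := h m (by obtain ⟨t, ht⟩ := hu; exact ⟨v, t, ht⟩)
        (by rw [dx_append] at h1; omega) (by rw [dy_append] at h2; omega)
      rw [hm, List.append_nil]
  · rintro h m ⟨s, t, ht⟩ h1 h2
    have h3 := h s (s ++ m) ⟨m ++ t, by rw [← ht, List.append_assoc]⟩ ⟨t, ht⟩
      (by rw [dx_append]; omega) (by rw [dy_append]; omega)
    simpa using h3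

theorem hs_append (h : ℤ) (u v : List St) : hs h (u ++ v) = hs h u ++ hs (h + dy u) v := by
  induction u generalizing h with
  | nil => simp [hs]
  | cons s u ih =>
    rw [List.cons_append, hs, ih, hs, dy_cons, List.cons_append, add_assoc]

theorem hs_cons (h : ℤ) (s : St) (u : List St) : hs h (s :: u) = (h + s.y) :: hs (h + s.y) u := rfl

/-- the reversed word -/
def rv (q : List St) : List St := sg (ng q.reverse)

theorem rv_append (u v : List St) : rv (u ++ v) = rv v ++ rv u := by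
  simp [rv]

theorem rv_cons (s : St) (q : List St) : rv (s :: q) = rv q ++ [s.ng.sg] := by
  simp [rv]

theorem ng_sg_comm (s : St) : s.sg.ng.sg.ng = s := by cases s <;> rfl

theorem rv_rv (q : List St) : rv (rv q) = q := by
  induction q with
  | nil => rfl
  | cons s q ih =>
    rw [rv_cons, rv_append, ih]
    show [s.ng.sg.ng.sg] ++ q = s :: q
    have : s.ng.sg.ng.sg = s := by cases s <;> rfl
    rw [this]
    rfl

theorem dx_rv (q : List St) : dx (rv q) = - dx q := by simp [rv]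

theorem dy_rv (q : List St) : dy (rv q) = - dy q := by simp [rv]

theorem length_rv (q : List St) : (rv q).length = q.length := by simp [rv]

theorem saw_rv {q : List St} (h : Saw q) : Saw (rv q) := (h.reverse.ng).sg

theorem hs_rv (q : List St) (h : ℤ) :
    (h + dy q) :: hs (h + dy q) (rv q) = (h :: hs h q).reverse := by
  induction q generalizing h with
  | nil => simp [rv, hs]
  | cons s q ih =>
    have e : h + dy (s :: q) = (h + s.y) + dy q := by rw [dy_cons]; ring
    rw [rv_cons, hs_append, e, ← List.cons_append, ih (h + s.y), hs_cons h s q,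
      List.reverse_cons (a := h)]
    congr 1
    rw [dy_rv, hs_cons]
    have e2 : (s.ng.sg).y = - s.y := by cases s <;> rfl
    rw [e2]
    have e3 : h + s.y + dy q + -dy q + -s.y = h := by ring
    rw [e3]
    rfl

theorem prefix_rv {q u : List St} (h : u <+: rv q) : ∃ w v, q = w ++ v ∧ u = rv v := by
  obtain ⟨t, ht⟩ := h
  refine ⟨rv t, rv u, ?_, (rv_rv u).symm⟩
  rw [← rv_append, ht, rv_rv]

/-- the facts on the inserted word -/
structure GQ (hA t : ℤ) (h3 : ℕ) (q : List St) : Prop where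
  saw : Saw q
  hdx : dx q = 0
  hdy : dy q = t
  nn : ∀ u, u <+: q → 0 ≤ dx u
  up : Up hA q
  dec : ∃ (a : List St) (s : St) (c : List St), q = a ++ s :: c ∧ (∀ u, u <+: q → dx u ≤ dx a) ∧
    ((s = St.N ∧ hA + dy a = h3) ∨ (s = St.S ∧ hA + dy a = h3 + 1))

theorem gq_N {h2 h3 : ℕ} {p : List St} (h : Cls h2 h3 p) : GQ (h2 : ℤ) 1 h3 p :=
  ⟨h.1, h.2.1, h.2.2.1, h.2.2.2.1, h.2.2.2.2.1, h.2.2.2.2.2⟩

theorem gq_S {h2 h3 : ℕ} {p : List St} (h : Cls h2 h3 p) : GQ ((h2 : ℤ) + 1) (-1) h3 (rv p) := by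
  obtain ⟨h1, h4, h5, h6, h7, a, s, c, rfl, h8, h9⟩ := h
  refine ⟨saw_rv h1, by rw [dx_rv, h4]; rfl, by rw [dy_rv, h5], ?_, ?_, ?_⟩
  · intro u hu
    obtain ⟨w, v, hwv, rfl⟩ := prefix_rv hu
    have h10 := h6 w ⟨v, hwv.symm⟩
    rw [hwv, dx_append] at h4
    rw [dx_rv]
    omega
  · intro y hy
    have h10 := hs_rv (a ++ s :: c) (h2 : ℤ)
    rw [h5] at h10
    have h11 : y ∈ ((h2 : ℤ) :: hs h2 (a ++ s :: c)).reverse := by
      rw [← h10]
      exact List.mem_cons_of_mem _ hy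
    rw [List.mem_reverse, List.mem_cons] at h11
    rcases h11 with h11 | h11
    · omega
    · exact h7 y h11
  · have hsx : s.x = 0 := by
      rcases h9 with h9 | h9 <;> rw [h9.1] <;> rfl
    have h4' : dx a + (s.x + dx c) = 0 := by rw [← h4, dx_append, dx_cons]
    have h5' : dy a + (s.y + dy c) = 1 := by rw [← h5, dy_append, dy_cons]
    refine ⟨rv c, s.ng.sg, rv a, ?_, ?_, ?_⟩
    · rw [rv_append, rv_cons, List.append_assoc]
      rfl
    · intro u hu
      obtain ⟨w, v, hwv, rfl⟩ := prefix_rv hu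
      have h10 := h8 w ⟨v, hwv.symm⟩
      rw [hwv, dx_append] at h4
      rw [dx_rv, dx_rv]
      omega
    · rcases h9 with ⟨rfl, h9⟩ | ⟨rfl, h9⟩
      · right
        refine ⟨rfl, ?_⟩
        rw [dy_rv]
        have : St.N.y = 1 := rfl
        omega
      · left
        refine ⟨rfl, ?_⟩
        rw [dy_rv]
        have : St.S.y = -1 := rfl
        omega

theorem count_rv {h2 : ℕ} {p : List St} (h : dy p = 1) :
    vis ((h2 : ℤ) + 1) (rv p) = vis h2 p + if h2 = 0 then 1 else 0 := by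
  have h10 := hs_rv p (h2 : ℤ)
  rw [h] at h10
  have h11 := congrArg (List.count (0 : ℤ)) h10
  rw [List.count_cons, List.count_reverse, List.count_cons] at h11
  have e1 : (((h2 : ℤ) + 1) == 0) = false := by
    rw [beq_eq_false_iff_ne]
    omega
  rw [e1] at h11
  unfold vis
  by_cases h0 : h2 = 0
  · subst h0
    simpa using h11
  · have e2 : (((h2 : ℤ)) == 0) = false := by
      rw [beq_eq_false_iff_ne]
      omega
    rw [e2] at h11
    rw [if_neg h0]
    simpa using h11

/-- the merged word -/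
def mg (a q c : List St) : List St := a ++ St.E :: (q ++ St.W :: c)

theorem prefix_mg {u a q c : List St} (h : u <+: mg a q c) : u <+: a ∨
    (∃ v, v <+: q ∧ u = a ++ St.E :: v) ∨
    (∃ v, v <+: c ∧ u = a ++ St.E :: (q ++ St.W :: v)) := by
  unfold mg at h
  rcases prefix_append_cases h with h | ⟨v, hv, hv0, rfl⟩
  · exact Or.inl h
  · rcases List.prefix_cons_iff.1 hv with h | ⟨t, rfl, ht⟩
    · exact absurd h hv0
    · rcases prefix_append_cases ht with h | ⟨w, hw, hw0, rfl⟩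
      · exact Or.inr (Or.inl ⟨t, h, rfl⟩)
      · rcases List.prefix_cons_iff.1 hw with h | ⟨t', rfl, ht'⟩
        · exact absurd h hw0
        · exact Or.inr (Or.inr ⟨t', ht', rfl⟩)

theorem hs_mg (h : ℤ) (a q c : List St) : hs h (mg a q c) = hs h a ++ (h + dy a) ::
    (hs (h + dy a) q ++ (h + dy a + dy q) :: hs (h + dy a + dy q) c) := by
  unfold mg
  rw [hs_append, hs_cons, hs_append, hs_cons, St.y_E, St.y_W, add_zero, add_zero]

theorem hs_p (h : ℤ) (a c : List St) (s : St) : hs h (a ++ s :: c) = hs h a ++ (h + dy a + s.y) ::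
    hs (h + dy a + s.y) c := by
  rw [hs_append, hs_cons]

theorem vis_mg (h : ℤ) (a q c : List St) (s : St) (hq : dy q = s.y) :
    vis h (mg a q c) = vis h (a ++ s :: c) + (vis (h + dy a) q + if h + dy a = 0 then 1 else 0) := by
  unfold vis
  rw [hs_mg, hs_p, hq, List.count_append, List.count_append, List.count_cons, List.count_append]
  have e : (if ((h + dy a) == 0) = true then 1 else 0) = if h + dy a = 0 then 1 else 0 := by
    simp
  rw [e]
  omega

theorem merge_cls {h1 h3 : ℕ} {a c q : List St} {s : St} (g1 : Saw (a ++ s :: c))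
    (g2 : dx (a ++ s :: c) = 0) (g3 : dy (a ++ s :: c) = 1)
    (g4 : ∀ u, u <+: a ++ s :: c → 0 ≤ dx u) (g5 : Up h1 (a ++ s :: c))
    (g6 : ∀ u, u <+: a ++ s :: c → dx u ≤ dx a) (hsx : s.x = 0) (h0 : 0 ≤ (h1 : ℤ) + dy a)
    (hq : GQ ((h1 : ℤ) + dy a) s.y h3 q) : Cls h1 h3 (mg a q c) := by
  obtain ⟨q1, q2, q3, q4, q5, a2, s2, c2, hqe, q6, q7⟩ := hq
  rw [dx_append, dx_cons] at g2
  rw [dy_append, dy_cons] at g3
  have pa : ∀ u, u <+: a → u <+: a ++ s :: c := fun u hu => hu.trans ⟨_, rfl⟩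
  have pc : ∀ v, v <+: c → a ++ s :: v <+: a ++ s :: c := by
    rintro v ⟨t, rfl⟩
    exact ⟨t, by simp⟩
  have posQ : ∀ v, dx (a ++ St.E :: v) = dx a + 1 + dx v := by
    intro v
    rw [dx_append, dx_cons, St.x_E]
    ring
  have posQy : ∀ v, dy (a ++ St.E :: v) = dy a + dy v := by
    intro v
    rw [dy_append, dy_cons, St.y_E]
    ring
  have posC : ∀ v, dx (a ++ St.E :: (q ++ St.W :: v)) = dx (a ++ s :: v) := by
    intro v
    rw [posQ, dx_append, dx_cons, dx_append, dx_cons, St.x_W, q2, hsx]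
    ring
  have posCy : ∀ v, dy (a ++ St.E :: (q ++ St.W :: v)) = dy (a ++ s :: v) := by
    intro v
    rw [posQy, dy_append, dy_cons, dy_append, dy_cons, St.y_W, q3]
    ring
  have ha0 : 0 ≤ dx a2 := q4 a2 ⟨_, hqe.symm⟩
  refine ⟨?_, ?_, ?_, ?_, ?_, a ++ St.E :: a2, s2, c2 ++ St.W :: c, ?_, ?_, ?_⟩
  · rw [saw_iff] at g1 q1 ⊢
    intro u v hu hv e1 e2
    rcases prefix_mg hu with hu1 | ⟨u', hu1, rfl⟩ | ⟨u', hu1, rfl⟩ <;>
      rcases prefix_mg hv with hv1 | ⟨v', hv1, rfl⟩ | ⟨v', hv1, rfl⟩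
    · exact g1 u v (pa u hu1) (pa v hv1) e1 e2
    · have := g6 u (pa u hu1)
      have := q4 v' hv1
      rw [posQ] at e1
      omega
    · rw [posC] at e1
      rw [posCy] at e2
      have h5 := g1 u _ (pa u hu1) (pc v' hv1) e1 e2
      have h6 := hu1.length_le
      rw [h5, List.length_append, List.length_cons] at h6
      omega
    · have := g6 v (pa v hv1)
      have := q4 u' hu1
      rw [posQ] at e1
      omega
    · rw [posQ, posQ] at e1
      rw [posQy, posQy] at e2
      rw [q1 u' v' hu1 hv1 (by omega) (by omega)]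
    · rw [posC, posQ] at e1
      have := g6 _ (pc v' hv1)
      have := q4 u' hu1
      omega
    · rw [posC] at e1
      rw [posCy] at e2
      have h5 := g1 _ v (pc u' hu1) (pa v hv1) e1 e2
      have h6 := hv1.length_le
      rw [← h5, List.length_append, List.length_cons] at h6
      omega
    · rw [posC, posQ] at e1
      have := g6 _ (pc u' hu1)
      have := q4 v' hv1
      omega
    · rw [posC, posC] at e1
      rw [posCy, posCy] at e2
      have h5 := g1 _ _ (pc u' hu1) (pc v' hv1) e1 e2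
      have h6 := List.append_cancel_left h5
      rw [List.cons.injEq] at h6
      rw [h6.2]
  · unfold mg
    rw [posC, dx_append, dx_cons]
    exact g2
  · unfold mg
    rw [posCy, dy_append, dy_cons]
    exact g3
  · intro u hu
    rcases prefix_mg hu with hu1 | ⟨u', hu1, rfl⟩ | ⟨u', hu1, rfl⟩
    · exact g4 u (pa u hu1)
    · have := g4 a (pa a (List.prefix_refl _))
      have := q4 u' hu1
      rw [posQ]
      omega
    · rw [posC]
      exact g4 _ (pc u' hu1)
  · intro y hy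
    rw [hs_mg, q3] at hy
    have g5' : ∀ y ∈ hs h1 (a ++ s :: c), 0 ≤ y := g5
    rw [hs_p] at g5'
    simp only [List.mem_append, List.mem_cons] at hy g5'
    rcases hy with hy | hy | hy | hy | hy
    · exact g5' y (Or.inl hy)
    · rw [hy]; exact h0
    · exact q5 y hy
    · exact g5' y (Or.inr (Or.inl hy))
    · exact g5' y (Or.inr (Or.inr hy))
  · unfold mg
    rw [hqe]
    simp
  · intro u hu
    rw [posQ]
    rcases prefix_mg hu with hu1 | ⟨u', hu1, rfl⟩ | ⟨u', hu1, rfl⟩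
    · have := g6 u (pa u hu1)
      omega
    · rw [posQ]
      have := q6 u' hu1
      omega
    · rw [posC]
      have := g6 _ (pc u' hu1)
      omega
  · rw [posQy, ← add_assoc]
    exact q7

/-- the decoding map -/
def dcd (m : ℕ) (t : (ℕ × Bool) × List St) : List St × List St :=
  (t.2.take t.1.1 ++ (if t.1.2 then St.N else St.S) :: t.2.drop (t.1.1 + 1 + (m + 1)),
    if t.1.2 then (t.2.drop (t.1.1 + 1)).take m else rv ((t.2.drop (t.1.1 + 1)).take m))

theorem parts {a q c : List St} {m : ℕ} (hq : q.length = m) :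
    (mg a q c).take a.length = a ∧ (mg a q c).drop (a.length + 1 + (m + 1)) = c ∧
      ((mg a q c).drop (a.length + 1)).take m = q := by
  subst hq
  unfold mg
  refine ⟨?_, ?_, ?_⟩
  · simp
  · have e : a ++ St.E :: (q ++ St.W :: c) = (a ++ St.E :: (q ++ [St.W])) ++ c := by simp
    rw [e]
    apply List.drop_left'
    simp
    omega
  · have e : a ++ St.E :: (q ++ St.W :: c) = (a ++ [St.E]) ++ (q ++ St.W :: c) := by simp
    rw [e, List.drop_left' (by simp), List.take_left' rfl]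

theorem main {h1 h2 h3 n m : ℕ} {p1 p2 : List St} (H1 : Cls h1 h2 p1) (hl1 : p1.length = n)
    (H2 : Cls h2 h3 p2) (hl2 : p2.length = m) : ∃ (i : ℕ) (b : Bool) (M : List St), i < n + 1 ∧
      Cls h1 h3 M ∧ M.length = n + m + 1 ∧ dcd m ((i, b), M) = (p1, p2) ∧
      vis h1 M = vis h1 p1 + (vis h2 p2 + if h2 = 0 then 1 else 0) ∧
      ((0 : ℤ) ∈ hs h1 p1 → (0 : ℤ) ∈ hs h1 M) := by
  obtain ⟨g1, g2, g3, g4, g5, a, s, c, rfl, g6, g7⟩ := H1
  have hlen : a.length + (c.length + 1) = n := by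
    rw [← hl1, List.length_append, List.length_cons]
  have touch : ∀ q : List St, dy q = s.y → (0 : ℤ) ∈ hs h1 (a ++ s :: c) →
      (0 : ℤ) ∈ hs h1 (mg a q c) := by
    intro q hq h
    rw [hs_mg, hq]
    rw [hs_p] at h
    simp only [List.mem_append, List.mem_cons] at h ⊢
    rcases h with h | h | h
    · exact Or.inl h
    · exact Or.inr (Or.inr (Or.inr (Or.inl h)))
    · exact Or.inr (Or.inr (Or.inr (Or.inr h)))
  rcases g7 with ⟨rfl, g7⟩ | ⟨rfl, g7⟩
  · have hq := gq_N H2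
    rw [← g7] at hq
    refine ⟨a.length, true, mg a p2 c, by omega, ?_, ?_, ?_, ?_, ?_⟩
    · exact merge_cls g1 g2 g3 g4 g5 g6 rfl (by omega) hq
    · unfold mg
      simp only [List.length_append, List.length_cons]
      omega
    · obtain ⟨e1, e2, e3⟩ := parts (a := a) (q := p2) (c := c) hl2
      simp only [dcd, if_true]
      rw [e1, e2, e3]
    · rw [vis_mg (h1 : ℤ) a p2 c St.N H2.2.2.1, g7]
      simp
    · exact touch p2 H2.2.2.1
  · have hq := gq_S H2
    rw [← g7] at hq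
    have hdy : dy (rv p2) = St.S.y := by rw [dy_rv, H2.2.2.1]; rfl
    refine ⟨a.length, false, mg a (rv p2) c, by omega, ?_, ?_, ?_, ?_, ?_⟩
    · exact merge_cls g1 g2 g3 g4 g5 g6 rfl (by omega) hq
    · unfold mg
      simp only [List.length_append, List.length_cons, length_rv]
      omega
    · obtain ⟨e1, e2, e3⟩ := parts (a := a) (q := rv p2) (c := c) (m := m)
        (by rw [length_rv]; exact hl2)
      simp only [dcd, Bool.false_eq_true, if_false]
      rw [e1, e2, e3, rv_rv]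
    · rw [vis_mg (h1 : ℤ) a (rv p2) c St.S hdy, g7, count_rv H2.2.2.1]
      have e : ¬ ((h2 : ℤ) + 1 = 0) := by omega
      rw [if_neg e, add_zero]
    · exact touch _ hdy

theorem sum_decode {α β : Type*} (S : Finset α) (T : Finset β) (f : α → ℝ) (F : β → ℝ)
    (g : β → α) (hF : ∀ t ∈ T, 0 ≤ F t) (h : ∀ p ∈ S, ∃ t ∈ T, g t = p ∧ f p ≤ F t) :
    ∑ p ∈ S, f p ≤ ∑ t ∈ T, F t := by
  classical
  rcases S.eq_empty_or_nonempty with rfl | ⟨p0, hp0⟩
  · rw [Finset.sum_empty]
    exact Finset.sum_nonneg hF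
  have : Nonempty β := ⟨(h p0 hp0).choose⟩
  choose! e he using h
  calc ∑ p ∈ S, f p ≤ ∑ p ∈ S, F (e p) := Finset.sum_le_sum fun p hp => (he p hp).2.2
    _ = ∑ t ∈ S.image e, F t := by
        rw [Finset.sum_image]
        intro p hp p' hp' hpp
        rw [← (he p hp).2.1, ← (he p' hp').2.1, hpp]
    _ ≤ ∑ t ∈ T, F t := by
        refine Finset.sum_le_sum_of_subset_of_nonneg ?_ fun t ht _ => hF t ht
        intro t ht
        obtain ⟨p, hp, rfl⟩ := Finset.mem_image.1 ht
        exact (he p hp).1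

theorem wgt_pos (α : ℝ) (h1 : ℕ) (p : List St) : 0 < wgt α h1 p := Real.exp_pos _

theorem count_it (α : ℝ) (h1 h2 h3 n m : ℕ) (A B : List St → Prop)
    (hA : ∀ p, A p → Cls h1 h2 p)
    (hB : ∀ p1 M, A p1 → Cls h1 h3 M → ((0 : ℤ) ∈ hs h1 p1 → (0 : ℤ) ∈ hs h1 M) → B M) :
    (∑ p ∈ fs A n, wgt α h1 p) * V h2 h3 α m ≤
      2 * ((n : ℝ) + 1) * ∑ p ∈ fs B (n + m + 1), wgt α h1 p := by
  unfold V
  rw [Finset.sum_mul_sum, ← Finset.sum_product']
  have e : 2 * ((n : ℝ) + 1) * ∑ p ∈ fs B (n + m + 1), wgt α h1 p =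
      ∑ t ∈ (Finset.range (n + 1) ×ˢ (Finset.univ : Finset Bool)) ×ˢ fs B (n + m + 1),
        wgt α h1 t.2 := by
    rw [Finset.sum_product]
    show _ = ∑ _x ∈ Finset.range (n + 1) ×ˢ (Finset.univ : Finset Bool),
      ∑ y ∈ fs B (n + m + 1), wgt α h1 y
    rw [Finset.sum_const, nsmul_eq_mul, Finset.card_product,
      Finset.card_range, Finset.card_univ, Fintype.card_bool]
    push_cast
    ring
  rw [e]
  refine sum_decode _ _ _ _ (dcd m) (fun t _ => (wgt_pos α h1 t.2).le) ?_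
  rintro ⟨p1, p2⟩ hp
  rw [Finset.mem_product, mem_fs, mem_fs] at hp
  obtain ⟨⟨hp1, hl1⟩, hp2, hl2⟩ := hp
  obtain ⟨i, b, M, hi, hM, hMl, hd, hv, ht⟩ := main (hA p1 hp1) hl1 hp2 hl2
  refine ⟨((i, b), M), ?_, hd, ?_⟩
  · rw [Finset.mem_product, Finset.mem_product, mem_fs, Finset.mem_range]
    exact ⟨⟨hi, Finset.mem_univ _⟩, hB p1 M hp1 hM ht, hMl⟩
  · show wgt α h1 p1 * wgt α h2 p2 ≤ wgt α h1 M
    unfold wgt
    rw [← Real.exp_add, ← mul_add, hv]
    apply le_of_eq
    congr 2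
    push_cast
    ring

end P6mAux

open P6mAux in
theorem p6m : St_P6m := by
  intro α h1 h2 h3 n m
  constructor
  · exact count_it α h1 h2 h3 n m (Cls h1 h2) (Cls h1 h3) (fun p h => h) (fun p1 M _ h _ => h)
  · refine count_it α h1 h2 h3 n m (fun p => Cls h1 h2 p ∧ (h1 = 0 ∨ (0 : ℤ) ∈ hs h1 p))
      (fun p => Cls h1 h3 p ∧ (h1 = 0 ∨ (0 : ℤ) ∈ hs h1 p)) (fun p h => h.1) ?_
    intro p1 M h h' ht
    refine ⟨h', ?_⟩
    rcases h.2 with h4 | h4
    · exact Or.inl h4
    · exact Or.inr (ht h4)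

end Pool.Agent.TH262.AD
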