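import Pool.Agent.TH262.AD.Stm

set_option autoImplicit false

namespace Pool.Agent.TH262.AD

open H981 Finset
open Pool.Agent.TH795.EP
open Filter Topology

private lemma p6z_lim (u e : ℕ → ℝ) (B : ℝ) (hB : ∀ᶠ k in atTop, u k ≤ B)
    (he : Tendsto e atTop (𝓝 0))
    (h : ∀ᶠ k in atTop, ∀ δ : ℝ, 0 < δ → ∀ᶠ j in atTop, u k - e k - δ ≤ u j) :
    ∃ L : ℝ, Tendsto u atTop (𝓝 L) := by
  have hbdA : IsBoundedUnder (· ≤ ·) atTop u := ⟨B, by simpa using hB⟩
  obtain ⟨k0, hk0⟩ := h.exists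
  have hbdB : IsBoundedUnder (· ≥ ·) atTop u :=
    ⟨u k0 - e k0 - 1, by simpa using hk0 1 one_pos⟩
  refine ⟨limsup u atTop, tendsto_of_le_liminf_of_limsup_le ?_ le_rfl hbdA hbdB⟩
  refine le_of_forall_pos_le_add fun ε hε => ?_
  have h3 : 0 < ε / 3 := by positivity
  have hf : ∃ᶠ k in atTop, limsup u atTop - ε / 3 < u k :=
    frequently_lt_of_lt_limsup hbdB.isCoboundedUnder_le (by linarith)
  have hev : ∀ᶠ k in atTop, e k < ε / 3 := he.eventually_lt_const h3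
  obtain ⟨k, hk, hk2, hk3⟩ := (hf.and_eventually (hev.and h)).exists
  have h4 := hk3 (ε / 3) h3
  have h5 : limsup u atTop - ε ≤ liminf u atTop :=
    le_liminf_of_le hbdA.isCoboundedUnder_ge (h4.mono fun j hj => by linarith)
  linarith

private lemma p6z_card (P : List St → Prop) (n : ℕ) : ((fs P n).card : ℝ) ≤ 4 ^ n := by
  have h1 : (fs P n) ⊆ (univ : Finset (Fin n → St)).image List.ofFn := by
    intro w hw
    obtain ⟨_, rfl⟩ := mem_fs.1 hw
    exact Finset.mem_image.2 ⟨w.get, Finset.mem_univ _, List.ofFn_get w⟩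
  have h2 := (Finset.card_le_card h1).trans Finset.card_image_le
  have h3 : (univ : Finset (Fin n → St)).card = 4 ^ n := by
    rw [Finset.card_univ, Fintype.card_fun, Fintype.card_fin]
    rfl
  rw [h3] at h2
  exact_mod_cast h2

private lemma p6z_len (h : ℤ) (w : List St) : (hs h w).length = w.length := by
  induction w generalizing h with
  | nil => rfl
  | cons s w ih => simp [hs, ih]

private lemma p6z_vis (h : ℤ) (w : List St) : vis h w ≤ w.length := by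
  unfold vis
  exact (List.count_le_length).trans (p6z_len h w).le

private lemma p6z_upper (α : ℝ) (n : ℕ) : ZP α n ≤ (4 * Real.exp |α|) ^ n := by
  unfold ZP
  have h1 : ∀ w ∈ fs (fun w => Clo w ∧ Up 0 w) n, Real.exp (α * (vis 0 w : ℝ)) ≤
      Real.exp |α| ^ n := by
    intro w hw
    have hl := (mem_fs.1 hw).2
    rw [← Real.exp_nat_mul]
    apply Real.exp_le_exp.2
    have h2 : (vis 0 w : ℝ) ≤ n := by
      have := p6z_vis 0 w
      rw [hl] at this
      exact_mod_cast this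
    have h3 : (0 : ℝ) ≤ vis 0 w := by positivity
    calc α * (vis 0 w : ℝ) ≤ |α| * vis 0 w := mul_le_mul_of_nonneg_right (le_abs_self α) h3
      _ ≤ |α| * n := mul_le_mul_of_nonneg_left h2 (abs_nonneg α)
      _ = n * |α| := by ring
  refine (Finset.sum_le_sum h1).trans ?_
  rw [Finset.sum_const, nsmul_eq_mul, mul_pow]
  exact mul_le_mul_of_nonneg_right (p6z_card _ n) (by positivity)

private lemma p6z_V0 (h1 h2 : ℕ) (α : ℝ) (n : ℕ) : 0 ≤ V h1 h2 α n :=
  Finset.sum_nonneg fun _ _ => (Real.exp_pos _).le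

private lemma p6z_VT0 (h1 h2 : ℕ) (α : ℝ) (n : ℕ) : 0 ≤ VT h1 h2 α n :=
  Finset.sum_nonneg fun _ _ => (Real.exp_pos _).le

private lemma p6z_ZP0 (α : ℝ) (n : ℕ) : 0 ≤ ZP α n :=
  Finset.sum_nonneg fun _ _ => (Real.exp_pos _).le

private lemma p6z_pos (hl : St_P6l) (he : St_P6e) (α : ℝ) (j : ℕ) (hj : 2 ≤ j) :
    0 < ZP α (2 * j) := by
  obtain ⟨h, rfl⟩ : ∃ h, j = h + 2 := ⟨j - 2, by omega⟩
  have h1 := (he α h 0).2
  have h2 := hl α h h (2 * h + 3)
  have h3 : 2 * h + 3 + 1 = 2 * (h + 2) := by ring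
  rw [h3] at h2
  by_contra hc
  have h4 : ZP α (2 * (h + 2)) = 0 := le_antisymm (not_lt.1 hc) (p6z_ZP0 _ _)
  rw [h4, mul_zero] at h2
  linarith

/-- the choice of the small polygons -/
private lemma p6z_choice (hm : St_P6m) (hr : St_P6r) (hu : St_P6u) (he : St_P6e) (α : ℝ) (n : ℕ)
    (hn : 3 ≤ n) : ∃ h : ℕ, 0 < V h h α (2 * n + 1) ∧
      ZP α (n + 1) ^ 2 ≤ 16 * ((n : ℝ) + 1) ^ 4 * ((n : ℝ) + 2) ^ 4 * V h h α (2 * n + 1) := by
  have hz0 := p6z_ZP0 α (n + 1)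
  have hn1 : (0 : ℝ) < (n : ℝ) + 1 := by positivity
  have hn2 : (0 : ℝ) < (n : ℝ) + 2 := by positivity
  obtain ⟨h1, h2, hV⟩ : ∃ h1 h2 : ℕ, ZP α (n + 1) ≤ 2 * ((n : ℝ) + 1) * ((n : ℝ) + 2) ^ 2 *
      V h1 h2 α n := by
    by_contra hc
    push Not at hc
    have h3 := hu α n hn
    set b : ℝ := ZP α (n + 1) / (2 * ((n : ℝ) + 1) * ((n : ℝ) + 2) ^ 2) with hb
    have h4 : ∀ h1 h2, V h1 h2 α n < b := by
      intro h1 h2
      rw [hb, lt_div_iff₀ (by positivity)]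
      have := hc h1 h2
      linarith
    have hne : (Finset.range (n + 2)).Nonempty := ⟨0, by simp⟩
    have h5 : ∑ h1 ∈ Finset.range (n + 2), ∑ h2 ∈ Finset.range (n + 2), V h1 h2 α n <
        ∑ _h1 ∈ Finset.range (n + 2), ∑ _h2 ∈ Finset.range (n + 2), b := by
      apply Finset.sum_lt_sum_of_nonempty hne
      intro i _
      apply Finset.sum_lt_sum_of_nonempty hne
      intro j _
      exact h4 i j
    have h6 : ∑ _h1 ∈ Finset.range (n + 2), ∑ _h2 ∈ Finset.range (n + 2), b =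
        ((n : ℝ) + 2) ^ 2 * b := by
      simp only [Finset.sum_const, Finset.card_range, nsmul_eq_mul]
      push_cast
      ring
    rw [h6] at h5
    have h7 : 2 * ((n : ℝ) + 1) * (((n : ℝ) + 2) ^ 2 * b) = ZP α (n + 1) := by
      rw [hb]
      field_simp
    have h8 : 2 * ((n : ℝ) + 1) * ∑ h1 ∈ Finset.range (n + 2), ∑ h2 ∈ Finset.range (n + 2),
        V h1 h2 α n < 2 * ((n : ℝ) + 1) * (((n : ℝ) + 2) ^ 2 * b) :=
      mul_lt_mul_of_pos_left h5 (by positivity)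
    linarith
  have hVe := (he α h1 n).1
  refine ⟨h1, hVe, ?_⟩
  have h3 := hr α h1 h2 n
  have h4 := (hm α h1 h2 h1 n n).1
  have h5 : n + n + 1 = 2 * n + 1 := by ring
  rw [h5] at h4
  have hV0 := p6z_V0 h1 h2 α n
  set A := V h1 h2 α n
  set B := V h2 h1 α n
  set v := V h1 h1 α (2 * n + 1)
  have h6 : A ^ 2 ≤ 2 * ((n : ℝ) + 1) * (2 * ((n : ℝ) + 1) * v) := by
    calc A ^ 2 = A * A := by ring
      _ ≤ A * (2 * ((n : ℝ) + 1) * B) := mul_le_mul_of_nonneg_left h3 hV0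
      _ = 2 * ((n : ℝ) + 1) * (A * B) := by ring
      _ ≤ 2 * ((n : ℝ) + 1) * (2 * ((n : ℝ) + 1) * v) := mul_le_mul_of_nonneg_left h4 (by positivity)
  calc ZP α (n + 1) ^ 2 ≤ (2 * ((n : ℝ) + 1) * ((n : ℝ) + 2) ^ 2 * A) ^ 2 :=
        pow_le_pow_left₀ hz0 hV 2
    _ = 4 * ((n : ℝ) + 1) ^ 2 * ((n : ℝ) + 2) ^ 4 * A ^ 2 := by ring
    _ ≤ 4 * ((n : ℝ) + 1) ^ 2 * ((n : ℝ) + 2) ^ 4 *
        (2 * ((n : ℝ) + 1) * (2 * ((n : ℝ) + 1) * v)) :=
      mul_le_mul_of_nonneg_left h6 (by positivity)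
    _ = _ := by ring

/-- the iteration -/
private lemma p6z_iter (hm : St_P6m) (α : ℝ) (n h : ℕ) (m q : ℕ) :
    (V h h α (2 * n + 1) / (4 * ((n : ℝ) + 1))) ^ q * V h h α m ≤
      V h h α (q * (2 * n + 2) + m) := by
  induction q with
  | zero => simp
  | succ q ih =>
    have h1 := (hm α h h h (2 * n + 1) (q * (2 * n + 2) + m)).1
    have h2 : 2 * n + 1 + (q * (2 * n + 2) + m) + 1 = (q + 1) * (2 * n + 2) + m := by ring
    rw [h2] at h1
    have h3 : (2 * ((((2 * n + 1 : ℕ)) : ℝ) + 1)) = 4 * ((n : ℝ) + 1) := by push_cast; ring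
    rw [h3] at h1
    have hp : (0 : ℝ) < 4 * ((n : ℝ) + 1) := by positivity
    have h0 := p6z_V0 h h α (2 * n + 1)
    calc (V h h α (2 * n + 1) / (4 * ((n : ℝ) + 1))) ^ (q + 1) * V h h α m
        = V h h α (2 * n + 1) / (4 * ((n : ℝ) + 1)) *
          ((V h h α (2 * n + 1) / (4 * ((n : ℝ) + 1))) ^ q * V h h α m) := by ring
      _ ≤ V h h α (2 * n + 1) / (4 * ((n : ℝ) + 1)) * V h h α (q * (2 * n + 2) + m) :=
        mul_le_mul_of_nonneg_left ih (by positivity)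
      _ = V h h α (2 * n + 1) * V h h α (q * (2 * n + 2) + m) / (4 * ((n : ℝ) + 1)) := by ring
      _ ≤ V h h α ((q + 1) * (2 * n + 2) + m) := by
        rw [div_le_iff₀ hp]
        linarith

/-- lower bound for all large lengths -/
private lemma p6z_low (hm : St_P6m) (hl : St_P6l) (he : St_P6e) (α : ℝ) (n h : ℕ) :
    ∃ c : ℝ, 0 < c ∧ ∀ q t : ℕ, t < n + 1 →
      c * (V h h α (2 * n + 1) / (4 * ((n : ℝ) + 1))) ^ q ≤
        (2 * (h + 3 + q * (n + 1) + t) : ℕ) * ZP α (2 * (h + 3 + q * (n + 1) + t)) := by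
  obtain ⟨t0, _, ht0⟩ := Finset.exists_min_image (Finset.range (n + 1))
    (fun t => V h h α (2 * t + 1)) ⟨0, by simp⟩
  have hT := (he α h 0).2
  have hV0 := (he α h t0).1
  refine ⟨VT h h α (2 * h + 3) * V h h α (2 * t0 + 1) / (2 * (2 * h + 4)), by positivity, ?_⟩
  intro q t ht
  have h1 := p6z_iter hm α n h (2 * t + 1) q
  have h2 := (hm α h h h (2 * h + 3) (q * (2 * n + 2) + (2 * t + 1))).2
  have h3 := hl α h h (2 * h + 3 + (q * (2 * n + 2) + (2 * t + 1)) + 1)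
  have e1 : 2 * h + 3 + (q * (2 * n + 2) + (2 * t + 1)) + 1 + 1 =
      2 * (h + 3 + q * (n + 1) + t) := by ring
  have e2 : ((2 * h + 3 + (q * (2 * n + 2) + (2 * t + 1)) + 1 : ℕ) : ℝ) + 1 =
      ((2 * (h + 3 + q * (n + 1) + t) : ℕ) : ℝ) := by
    rw [← e1]; push_cast; ring
  rw [e1, e2] at h3
  have e3 : 2 * (((2 * h + 3 : ℕ) : ℝ) + 1) = 2 * (2 * h + 4) := by push_cast; ring
  rw [e3] at h2
  have h4 := ht0 t (Finset.mem_range.2 ht)
  set w := V h h α (2 * n + 1) / (4 * ((n : ℝ) + 1)) with hw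
  have hw0 : 0 ≤ w := div_nonneg (p6z_V0 _ _ _ _) (by positivity)
  have hwq : 0 ≤ w ^ q := pow_nonneg hw0 q
  have h5 : VT h h α (2 * h + 3) * (w ^ q * V h h α (2 * t0 + 1)) ≤
      2 * (2 * (h : ℝ) + 4) * (((2 * (h + 3 + q * (n + 1) + t) : ℕ) : ℝ) *
        ZP α (2 * (h + 3 + q * (n + 1) + t))) := by
    calc VT h h α (2 * h + 3) * (w ^ q * V h h α (2 * t0 + 1))
        ≤ VT h h α (2 * h + 3) * (w ^ q * V h h α (2 * t + 1)) :=
          mul_le_mul_of_nonneg_left (mul_le_mul_of_nonneg_left h4 hwq) hT.le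
      _ ≤ VT h h α (2 * h + 3) * V h h α (q * (2 * n + 2) + (2 * t + 1)) :=
          mul_le_mul_of_nonneg_left h1 hT.le
      _ ≤ _ := h2
      _ ≤ _ := mul_le_mul_of_nonneg_left h3 (by positivity)
  have hp : (0 : ℝ) < 2 * (2 * (h : ℝ) + 4) := by positivity
  calc VT h h α (2 * h + 3) * V h h α (2 * t0 + 1) / (2 * (2 * (h : ℝ) + 4)) * w ^ q
      = VT h h α (2 * h + 3) * (w ^ q * V h h α (2 * t0 + 1)) / (2 * (2 * (h : ℝ) + 4)) := by ring
    _ ≤ _ := by
      rw [div_le_iff₀ hp]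
      linarith

private lemma p6z_tend0 : Tendsto (fun x : ℝ => Real.log x / x) atTop (𝓝 0) :=
  Real.isLittleO_log_id_atTop.tendsto_div_nhds_zero

private lemma p6z_ev (hm : St_P6m) (hr : St_P6r) (hu : St_P6u) (hl : St_P6l) (he : St_P6e)
    (α : ℝ) (k : ℕ) (hk : 2 ≤ k) (δ : ℝ) (hδ : 0 < δ) :
    ∀ᶠ j : ℕ in atTop, Real.log (ZP α (2 * k)) / ((2 * k : ℕ) : ℝ) -
      10 * Real.log ((4 * k : ℕ) : ℝ) / ((4 * k : ℕ) : ℝ) - δ ≤
        Real.log (ZP α (2 * j)) / ((2 * j : ℕ) : ℝ) := by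
  obtain ⟨n, hn⟩ : ∃ n, 2 * k = n + 1 := ⟨2 * k - 1, by omega⟩
  have hn3 : 3 ≤ n := by omega
  have hnk : (n : ℝ) + 1 = 2 * k := by exact_mod_cast hn.symm
  obtain ⟨h, hv, hz⟩ := p6z_choice hm hr hu he α n hn3
  obtain ⟨c, hc, hlow⟩ := p6z_low hm hl he α n h
  set v := V h h α (2 * n + 1) with hvdef
  set w := v / (4 * ((n : ℝ) + 1)) with hw
  have hkpos : (0 : ℝ) < k := by exact_mod_cast (by omega : 0 < k)
  have hk2 : (2 : ℝ) ≤ k := by exact_mod_cast hk
  have hw0 : 0 < w := by rw [hw]; positivity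
  have hzk := p6z_pos hl he α k hk
  rw [← hn] at hz
  -- comparison of `log w` with `log z_k`
  have hcmp : 2 * Real.log (ZP α (2 * k)) ≤ 10 * Real.log ((4 * k : ℕ) : ℝ) + Real.log w := by
    have h1 : ZP α (2 * k) ^ 2 ≤ ((4 * k : ℕ) : ℝ) ^ 10 * w := by
      refine hz.trans ?_
      have e1 : v = w * (4 * ((n : ℝ) + 1)) := by rw [hw]; field_simp
      have e2 : (n : ℝ) + 2 = 2 * k + 1 := by linarith
      rw [e1, e2, hnk]
      push_cast
      have h2 : (2 * (k : ℝ) + 1) ^ 4 ≤ (4 * k) ^ 4 :=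
        pow_le_pow_left₀ (by positivity) (by linarith) 4
      have h3 : 16 * (2 * (k : ℝ)) ^ 4 * (4 * (2 * k)) ≤ (4 * k) ^ 6 := by
        have : (4 * (k : ℝ)) ^ 6 - 16 * (2 * (k : ℝ)) ^ 4 * (4 * (2 * k)) =
          (k : ℝ) ^ 5 * (4096 * k - 2048) := by ring
        have h4 : 0 ≤ (k : ℝ) ^ 5 * (4096 * k - 2048) :=
          mul_nonneg (by positivity) (by linarith)
        linarith
      calc 16 * (2 * (k : ℝ)) ^ 4 * (2 * k + 1) ^ 4 * (w * (4 * (2 * k)))
          = (16 * (2 * (k : ℝ)) ^ 4 * (4 * (2 * k))) * (2 * k + 1) ^ 4 * w := by ring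
        _ ≤ (4 * k) ^ 6 * (4 * k) ^ 4 * w := by
          apply mul_le_mul_of_nonneg_right _ hw0.le
          exact mul_le_mul h3 h2 (by positivity) (by positivity)
        _ = (4 * k) ^ 10 * w := by ring
    have h2 := Real.log_le_log (by positivity) h1
    have h4k : ((4 * k : ℕ) : ℝ) ≠ 0 := by
      have : (0 : ℝ) < ((4 * k : ℕ) : ℝ) := by exact_mod_cast (by omega : 0 < 4 * k)
      exact this.ne'
    rw [Real.log_pow, Real.log_mul (pow_ne_zero _ h4k) hw0.ne', Real.log_pow] at h2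
    push_cast at h2 ⊢
    linarith
  -- the error term
  obtain ⟨K, hK⟩ : ∃ K : ℝ, K = |Real.log c| + (h + 4) * |Real.log w| := ⟨_, rfl⟩
  have hT : Tendsto (fun j : ℕ => (K + Real.log ((2 * j : ℕ) : ℝ)) / ((2 * j : ℕ) : ℝ)) atTop
      (𝓝 0) := by
    have hcast : Tendsto (fun j : ℕ => ((2 * j : ℕ) : ℝ)) atTop atTop := by
      apply tendsto_natCast_atTop_atTop.comp
      exact tendsto_id.const_mul_atTop' (by norm_num)
    have h1 : Tendsto (fun x : ℝ => K / x + Real.log x / x) atTop (𝓝 (0 + 0)) :=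
      (tendsto_const_nhds.div_atTop tendsto_id).add p6z_tend0
    rw [add_zero] at h1
    have h2 := h1.comp hcast
    refine h2.congr fun j => ?_
    simp only [Function.comp]
    ring
  have hev := hT.eventually_lt_const hδ
  filter_upwards [hev, eventually_ge_atTop (h + 3)] with j hj hj2
  have hjpos : (0 : ℝ) < ((2 * j : ℕ) : ℝ) := by exact_mod_cast (by omega : 0 < 2 * j)
  have hzj := p6z_pos hl he α j (by omega)
  -- division with remainder
  obtain ⟨q, t, ht, hqt⟩ : ∃ q t : ℕ, t < n + 1 ∧ j = h + 3 + q * (n + 1) + t := by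
    refine ⟨(j - (h + 3)) / (n + 1), (j - (h + 3)) % (n + 1), Nat.mod_lt _ (by omega), ?_⟩
    have := Nat.div_add_mod (j - (h + 3)) (n + 1)
    rw [Nat.mul_comm] at this
    omega
  have h1 := hlow q t ht
  rw [← hqt] at h1
  have h2 := Real.log_le_log (by positivity) h1
  rw [Real.log_mul hc.ne' (by positivity), Real.log_pow, Real.log_mul hjpos.ne' hzj.ne'] at h2
  -- `q` against `j / (2 k)`
  have hq : ((j : ℝ) / (2 * k) - q) * Real.log w ≤ (h + 4) * |Real.log w| := by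
    have e1 : (j : ℝ) = h + 3 + q * (2 * k) + t := by
      rw [← hnk, hqt]; push_cast; ring
    have e2 : (j : ℝ) / (2 * k) - q = (h + 3 + t) / (2 * k) := by
      rw [e1]; field_simp; ring
    have e3 : 0 ≤ (j : ℝ) / (2 * k) - q := by rw [e2]; positivity
    have e4 : (j : ℝ) / (2 * k) - q ≤ h + 4 := by
      rw [e2, div_le_iff₀ (by positivity)]
      have ht' : (t : ℝ) ≤ 2 * k := by
        rw [← hnk]
        have : (t : ℝ) < ((n + 1 : ℕ) : ℝ) := by exact_mod_cast ht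
        push_cast at this
        linarith
      have hh : (0 : ℝ) ≤ h := by positivity
      nlinarith
    calc ((j : ℝ) / (2 * k) - q) * Real.log w ≤ ((j : ℝ) / (2 * k) - q) * |Real.log w| :=
          mul_le_mul_of_nonneg_left (le_abs_self _) e3
      _ ≤ (h + 4) * |Real.log w| := mul_le_mul_of_nonneg_right e4 (abs_nonneg _)
  have hcl : -|Real.log c| ≤ Real.log c := neg_abs_le _
  have h3 : (j : ℝ) / (2 * k) * Real.log w - (K + Real.log ((2 * j : ℕ) : ℝ)) ≤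
      Real.log (ZP α (2 * j)) := by
    rw [hK]
    linarith
  -- divide by `2 j`
  rw [div_lt_iff₀ hjpos] at hj
  rw [le_div_iff₀ hjpos]
  have h4 : (Real.log (ZP α (2 * k)) / ((2 * k : ℕ) : ℝ) -
      10 * Real.log ((4 * k : ℕ) : ℝ) / ((4 * k : ℕ) : ℝ)) * ((2 * j : ℕ) : ℝ) ≤
      (j : ℝ) / (2 * k) * Real.log w := by
    have e1 : (Real.log (ZP α (2 * k)) / ((2 * k : ℕ) : ℝ) -
      10 * Real.log ((4 * k : ℕ) : ℝ) / ((4 * k : ℕ) : ℝ)) * ((2 * j : ℕ) : ℝ) =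
      (j : ℝ) / (2 * k) * (2 * Real.log (ZP α (2 * k)) - 10 * Real.log ((4 * k : ℕ) : ℝ)) := by
      push_cast
      field_simp
      ring
    rw [e1]
    exact mul_le_mul_of_nonneg_left (by linarith) (by positivity)
  nlinarith

theorem p6z : St_P6z := by
  intro hm hr hu hl he α
  refine p6z_lim _ (fun k : ℕ => 10 * Real.log ((4 * k : ℕ) : ℝ) / ((4 * k : ℕ) : ℝ))
    (Real.log (4 * Real.exp |α|)) ?_ ?_ ?_
  · filter_upwards [eventually_ge_atTop 2] with k hk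
    have hz := p6z_pos hl he α k hk
    have h1 := Real.log_le_log hz (p6z_upper α (2 * k))
    rw [Real.log_pow] at h1
    have hkpos : (0 : ℝ) < ((2 * k : ℕ) : ℝ) := by exact_mod_cast (by omega : 0 < 2 * k)
    rw [div_le_iff₀ hkpos]
    linarith
  · have hcast : Tendsto (fun j : ℕ => ((4 * j : ℕ) : ℝ)) atTop atTop := by
      apply tendsto_natCast_atTop_atTop.comp
      exact tendsto_id.const_mul_atTop' (by norm_num)
    have h1 := (p6z_tend0.comp hcast).const_mul 10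
    rw [mul_zero] at h1
    refine h1.congr fun j => ?_
    simp only [Function.comp]
    ring
  · filter_upwards [eventually_ge_atTop 2] with k hk
    intro δ hδ
    exact p6z_ev hm hr hu hl he α k hk δ hδ

end Pool.Agent.TH262.AD
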